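import Pool.Agent.H607R3.PS.Grade
import Pool.Agent.H607R3.PS.RegR
import Pool.Agent.H594.PSRegP
import Pool.Agent.H841.PSRes
import Pool.Agent.H51R3.PS.Common
import Pool.Agent.H51R3.PS.TaskDim
import Pool.Agent.H633R3.PS.Loc
import Pool.Agent.H291R3.PSB.Base

set_option autoImplicit false

/-! The two remaining steps for the grade conjecture: dimension and grade over the second ring
`RP = RR[[t]]/(s t)` of the starting modules `H607R3/PS`. -/

namespace Pool.Agent.U329.PSG

open Pool.Agent.H607R3.PS IsLocalRing RR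

variable {T : Type} [CommRing T] {α β γ : T}

/-- the variable `t` of the second ring -/
noncomputable def tt : RP T α β γ :=
  Ideal.Quotient.mk _ (PowerSeries.X : PowerSeries (RR T α β γ))

theorem s_tt : toRP (s : RR T α β γ) * (tt : RP T α β γ) = 0 := by
  change Ideal.Quotient.mk _ (PowerSeries.C (s : RR T α β γ)) * Ideal.Quotient.mk _ PowerSeries.X = 0
  rw [← map_mul, Ideal.Quotient.eq_zero_iff_mem]
  exact Ideal.mem_span_singleton_self _

/-- every element of the second ring is `toRP r + t f` -/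
theorem split (f : RP T α β γ) : ∃ (r : RR T α β γ) (g : RP T α β γ), f = toRP r + tt * g := by
  obtain ⟨F, rfl⟩ := Ideal.Quotient.mk_surjective f
  refine ⟨PowerSeries.constantCoeff F, Ideal.Quotient.mk _ (PowerSeries.mk fun p => PowerSeries.coeff (p + 1) F), ?_⟩
  change _ = Ideal.Quotient.mk _ (PowerSeries.C (PowerSeries.constantCoeff F)) + Ideal.Quotient.mk _ PowerSeries.X * _
  rw [← map_mul, ← map_add]
  congr 1
  conv_lhs => rw [PowerSeries.eq_X_mul_shift_add_const F]
  rw [add_comm]

/-- the decomposition of elements of the first ring pushed to the second one -/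
theorem split2 (f : RP T α β γ) : ∃ (a b c : T) (g : RP T α β γ),
    f = toRP (emb a) + toRP (emb b) * toRP x + toRP (emb c) * toRP w + tt * g := by
  obtain ⟨r, g, rfl⟩ := split f
  refine ⟨r.a, r.b, r.c, g, ?_⟩
  conv_lhs => rw [decomp r]
  rw [map_add, map_add, map_mul, map_mul]

theorem x_sq : toRP (x : RR T α β γ) ^ 2 = toRP (emb α) * toRP x + toRP (emb β) * toRP w := by
  rw [← map_mul, ← map_mul, ← map_add, ← map_pow]
  congr 1
  ext <;> simp [x, w, pow_two]

theorem w_sq : toRP (w : RR T α β γ) ^ 2 = toRP (emb γ) * toRP w := by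
  rw [← map_mul, ← map_pow]
  congr 1
  ext <;> simp [w, pow_two]

theorem xs' : toRP (x : RR T α β γ) * toRP (s : RR T α β γ) = 0 := by
  rw [← map_mul, xs, map_zero]

theorem ws' : toRP (w : RR T α β γ) * toRP (s : RR T α β γ) = 0 := by
  rw [← map_mul, ws, map_zero]

theorem sw' : toRP (s : RR T α β γ) + toRP (w : RR T α β γ) = toRP (emb γ) := by
  rw [← map_add, s_add_w]

/-- a prime containing the ideal and `γ + t` is maximal -/
theorem max_of [IsLocalRing T] (hm : maximalIdeal T = Ideal.span {α, β, γ})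
    (Q : Ideal (RP T α β γ)) (hQ : Q.IsPrime) (hc : cP T α β γ ≤ Q)
    (hg : toRP (emb γ : RR T α β γ) + tt ∈ Q) : Q.IsMaximal := by
  have hα : toRP (emb α : RR T α β γ) ∈ Q := hQ.mem_of_pow_mem 4 (hc mem_F)
  have hβ : toRP (emb β : RR T α β γ) ∈ Q := hQ.mem_of_pow_mem 2 (hc mem_G)
  have hall : toRP (x : RR T α β γ) ∈ Q ∧ toRP (w : RR T α β γ) ∈ Q ∧
      toRP (emb γ : RR T α β γ) ∈ Q ∧ (tt : RP T α β γ) ∈ Q := by
    have hx : toRP (x : RR T α β γ) ∈ Q ∨ True := Or.inr trivial
    have h0 : toRP (s : RR T α β γ) * (tt : RP T α β γ) ∈ Q := by rw [s_tt]; exact Q.zero_mem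
    have hxx : toRP (w : RR T α β γ) ∈ Q → toRP (x : RR T α β γ) ∈ Q := by
      intro _
      refine hQ.mem_of_pow_mem 2 ?_
      rw [x_sq]
      exact Q.add_mem (Q.mul_mem_right _ hα) (Q.mul_mem_right _ hβ)
    rcases hQ.mem_or_mem h0 with hs | ht
    · have hw : toRP (w : RR T α β γ) ∈ Q := by
        refine hQ.mem_of_pow_mem 4 ?_
        have h1 : gens (toRP (x : RR T α β γ)) (toRP y) (toRP z) (toRP w) (toRP s) 4 ∈ Q :=
          hc (Ideal.subset_span ⟨4, rfl⟩)
        have h2 : toRP (w : RR T α β γ) ^ 4 =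
            gens (toRP (x : RR T α β γ)) (toRP y) (toRP z) (toRP w) (toRP s) 4 -
              toRP s * (toRP y * toRP z) := by
          have : gens (toRP (x : RR T α β γ)) (toRP y) (toRP z) (toRP w) (toRP s) 4 =
            toRP (w : RR T α β γ) ^ 4 + toRP s * toRP y * toRP z := rfl
          rw [this]; ring
        rw [h2]
        exact Q.sub_mem h1 (Q.mul_mem_right _ hs)
      have hγ : toRP (emb γ : RR T α β γ) ∈ Q := by rw [← sw']; exact Q.add_mem hs hw
      refine ⟨hxx hw, hw, hγ, ?_⟩
      have := Q.sub_mem hg hγ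
      rwa [add_sub_cancel_left] at this
    · have hγ : toRP (emb γ : RR T α β γ) ∈ Q := by
        have := Q.sub_mem hg ht
        rwa [add_sub_cancel_right] at this
      have hw : toRP (w : RR T α β γ) ∈ Q := by
        refine hQ.mem_of_pow_mem 2 ?_
        rw [w_sq]
        exact Q.mul_mem_right _ hγ
      exact ⟨hxx hw, hw, hγ, ht⟩
  obtain ⟨hx, hw, hγ, ht⟩ := hall
  rw [Ideal.isMaximal_iff]
  refine ⟨fun h => hQ.ne_top ((Ideal.eq_top_iff_one _).2 h), ?_⟩
  intro J f hQJ hfQ hfJ
  obtain ⟨a, b, c, g, rfl⟩ := split2 f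
  by_cases ha : a ∈ maximalIdeal T
  · exfalso
    apply hfQ
    have h1 : maximalIdeal T ≤ Q.comap ((toRP (T := T) (α := α) (β := β) (γ := γ)).comp emb) := by
      rw [hm, Ideal.span_le]
      rintro t (rfl | rfl | rfl)
      · exact hα
      · exact hβ
      · exact hγ
    exact Q.add_mem (Q.add_mem (Q.add_mem (h1 ha) (Q.mul_mem_left _ hx)) (Q.mul_mem_left _ hw))
      (Q.mul_mem_right _ ht)
  · have hu : IsUnit a := by
      by_contra hcon
      exact ha ((mem_maximalIdeal a).2 hcon)
    have h2 : toRP (emb a : RR T α β γ) ∈ J := by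
      have h3 := J.sub_mem (J.sub_mem (J.sub_mem hfJ (J.mul_mem_right g (hQJ ht)))
        (J.mul_mem_left (toRP (emb c)) (hQJ hw))) (J.mul_mem_left (toRP (emb b)) (hQJ hx))
      convert h3 using 1
      ring
    have h4 : IsUnit (toRP (emb a : RR T α β γ)) :=
      hu.map ((toRP (T := T) (α := α) (β := β) (γ := γ)).comp emb)
    rw [J.eq_top_of_isUnit_mem h2 h4]
    trivial

/-- the ring map to `T` -/
noncomputable def phi : RP T α β γ →+* T :=
  Ideal.Quotient.lift _ ((H51R3.PS.rho : RR T α β γ →+* T).comp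
    (PowerSeries.constantCoeff (R := RR T α β γ))) (by
    intro f hf
    rw [Ideal.mem_span_singleton] at hf
    obtain ⟨c, rfl⟩ := hf
    simp)

theorem phi_toRP (r : RR T α β γ) : phi (toRP r) = r.a := by
  change H51R3.PS.rho (PowerSeries.constantCoeff (PowerSeries.C r)) = r.a
  rw [PowerSeries.constantCoeff_C]
  rfl

theorem phi_tt : phi (tt : RP T α β γ) = 0 := by
  change H51R3.PS.rho (PowerSeries.constantCoeff (PowerSeries.X : PowerSeries (RR T α β γ))) = 0
  rw [PowerSeries.constantCoeff_X]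
  rfl

/-- the prime of height two -/
noncomputable def PP (T : Type) [CommRing T] (α β γ : T) : Ideal (RP T α β γ) :=
  (Ideal.span {α, β} : Ideal T).comap phi

theorem cP_le : cP T α β γ ≤ PP T α β γ := by
  rw [cP, cI, Ideal.span_le]
  rintro _ ⟨i, rfl⟩
  have h1 : gens (toRP (x : RR T α β γ)) (toRP y) (toRP z) (toRP w) (toRP s) i =
      toRP (gens (x : RR T α β γ) y z w s i) := by
    fin_cases i <;> simp [gens]
  rw [h1]
  change phi (toRP (gens (x : RR T α β γ) y z w s i)) ∈ (Ideal.span {α, β} : Ideal T)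
  rw [phi_toRP]
  exact H51R3.PS.rho_gens i

theorem PP_min (hp : (Ideal.span {α, β} : Ideal T).IsPrime)
    (hn : γ ∉ (Ideal.span {α, β} : Ideal T)) :
    PP T α β γ ∈ (Ideal.span {toRP (emb α : RR T α β γ), toRP (emb β : RR T α β γ)} :
      Ideal (RP T α β γ)).minimalPrimes := by
  have hP : (PP T α β γ).IsPrime := by
    unfold PP
    exact Ideal.comap_isPrime _ _
  refine ⟨⟨hP, ?_⟩, ?_⟩
  · rw [Ideal.span_le]
    rintro _ (rfl | rfl)
    · change phi _ ∈ (Ideal.span {α, β} : Ideal T)
      rw [phi_toRP]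
      exact Ideal.subset_span (by simp)
    · change phi _ ∈ (Ideal.span {α, β} : Ideal T)
      rw [phi_toRP]
      exact Ideal.subset_span (by simp)
  · rintro Q ⟨hQ, hQ2⟩ hQP
    have hα : toRP (emb α : RR T α β γ) ∈ Q := hQ2 (Ideal.subset_span (by simp))
    have hβ : toRP (emb β : RR T α β γ) ∈ Q := hQ2 (Ideal.subset_span (by simp))
    have hs : toRP (s : RR T α β γ) ∉ Q := by
      intro h
      have h1 := hQP h
      change phi _ ∈ (Ideal.span {α, β} : Ideal T) at h1
      rw [phi_toRP] at h1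
      exact hn h1
    have ht : (tt : RP T α β γ) ∈ Q := by
      have h0 : toRP (s : RR T α β γ) * (tt : RP T α β γ) ∈ Q := by rw [s_tt]; exact Q.zero_mem
      exact (hQ.mem_or_mem h0).resolve_left hs
    have hw : toRP (w : RR T α β γ) ∈ Q := by
      have h0 : toRP (w : RR T α β γ) * toRP (s : RR T α β γ) ∈ Q := by rw [ws']; exact Q.zero_mem
      exact (hQ.mem_or_mem h0).resolve_right hs
    have hx : toRP (x : RR T α β γ) ∈ Q := by
      have h0 : toRP (x : RR T α β γ) * toRP (s : RR T α β γ) ∈ Q := by rw [xs']; exact Q.zero_mem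
      exact (hQ.mem_or_mem h0).resolve_right hs
    intro f hf
    obtain ⟨a, b, c, g, rfl⟩ := split2 f
    have ha : a ∈ (Ideal.span {α, β} : Ideal T) := by
      change phi _ ∈ (Ideal.span {α, β} : Ideal T) at hf
      rw [map_add, map_add, map_add, map_mul, map_mul, map_mul, phi_toRP, phi_toRP, phi_toRP,
        phi_toRP, phi_toRP, phi_tt] at hf
      simpa [x, w] using hf
    have h1 : (Ideal.span {α, β} : Ideal T) ≤
        Q.comap ((toRP (T := T) (α := α) (β := β) (γ := γ)).comp emb) := by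
      rw [Ideal.span_le]
      rintro t (rfl | rfl)
      · exact hα
      · exact hβ
    exact Q.add_mem (Q.add_mem (Q.add_mem (h1 ha) (Q.mul_mem_left _ hx)) (Q.mul_mem_left _ hw))
      (Q.mul_mem_right _ ht)

/-- generic: no weakly regular sequence of length three in a prime minimal over two elements -/
theorem noSeq {A : Type} [CommRing A] [IsNoetherianRing A] (P : Ideal A) (a b : A)
    (hmin : P ∈ (Ideal.span {a, b} : Ideal A).minimalPrimes) (rs : List A) (hlen : rs.length = 3)
    (hmem : ∀ r ∈ rs, r ∈ P) (hreg : RingTheory.Sequence.IsWeaklyRegular A rs) : False := by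
  have hP : P.IsPrime := hmin.1.1
  have hh : P.height ≤ 2 := by
    refine (Ideal.height_le_card_of_mem_minimalPrimes_span (Set.toFinite _) hmin).trans ?_
    have h1 : ({a, b} : Set A).ncard ≤ 2 :=
      (Set.ncard_insert_le _ _).trans (by rw [Set.ncard_singleton])
    exact_mod_cast h1
  have h1 := hreg.isRegular_of_isLocalization_of_mem (Localization.AtPrime P) P hmem
  have h2 := ringKrullDim_add_length_eq_ringKrullDim_of_isRegular _ h1
  have h3 : ringKrullDim (Localization.AtPrime P) = P.height :=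
    IsLocalization.AtPrime.ringKrullDim_eq_height P (Localization.AtPrime P)
  rw [h3, List.length_map, hlen] at h2
  have hnt : Nontrivial (Localization.AtPrime P ⧸
      Ideal.ofList (rs.map (algebraMap A (Localization.AtPrime P)))) := by
    rw [Ideal.Quotient.nontrivial_iff]
    intro htop
    have h5 := h1.2
    rw [htop] at h5
    simp at h5
  have h4 : (0 : WithBot ℕ∞) ≤ ringKrullDim (Localization.AtPrime P ⧸
      Ideal.ofList (rs.map (algebraMap A (Localization.AtPrime P)))) :=
    ringKrullDim_nonneg_of_nontrivial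
  have h5 : (3 : WithBot ℕ∞) ≤ 2 := by
    calc (3 : WithBot ℕ∞) = 0 + ((3 : ℕ) : WithBot ℕ∞) := by norm_num
      _ ≤ _ := add_le_add h4 le_rfl
      _ = _ := h2
      _ ≤ 2 := WithBot.coe_le_coe.2 hh
  exact absurd (by exact_mod_cast h5 : (3 : ℕ) ≤ 2) (by decide)

/-- generic: a noetherian local ring in which all primes containing a nonunit `g` are maximal has
dimension at most one -/
theorem dimLe {A : Type} [CommRing A] [IsNoetherianRing A] [IsLocalRing A] (g : A)
    (hg : ¬ IsUnit g) (hall : ∀ Q : Ideal A, Q.IsPrime → g ∈ Q → Q.IsMaximal) :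
    ringKrullDim A ≤ 1 := by
  rw [← IsLocalRing.maximalIdeal_height_eq_ringKrullDim]
  have key : maximalIdeal A ∈ (Ideal.span {g} : Ideal A).minimalPrimes := by
    refine ⟨⟨(maximalIdeal.isMaximal _).isPrime, ?_⟩, ?_⟩
    · rw [Ideal.span_le, Set.singleton_subset_iff, SetLike.mem_coe, mem_maximalIdeal]
      exact hg
    · rintro Q ⟨hQ, hle⟩ _
      have h1 := hall Q hQ (hle (Ideal.subset_span (by simp)))
      rw [IsLocalRing.eq_maximalIdeal h1]
  have h1 : (maximalIdeal A).height ≤ 1 :=
    Ideal.height_le_one_of_isPrincipal_of_mem_minimalPrimes _ _ key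
  exact_mod_cast h1

theorem taskGradeP : TaskGradeP := by
  intro T _ _ _ _ α β γ hB
  rintro ⟨rs, hlen, hmem, hreg⟩
  have hN : IsNoetherianRing (RP T α β γ) := noeth_RP
  exact noSeq _ _ _ (PP_min (γ := γ) hB.prime2 hB.notMem) rs hlen
    (fun r hr => cP_le (hmem r hr)) hreg

theorem dimQ [IsLocalRing T] [IsNoetherianRing T] (hm : maximalIdeal T = Ideal.span {α, β, γ})
    (hl : IsLocalRing (RR T α β γ)) :
    ringKrullDim (RP T α β γ ⧸ cP T α β γ) ≤ 1 := by
  have hL : IsLocalRing (RP T α β γ) := local_RP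
  have hN : IsNoetherianRing (RP T α β γ) := noeth_RP
  by_cases htop : cP T α β γ = ⊤
  · have : Subsingleton (RP T α β γ ⧸ cP T α β γ) := Ideal.Quotient.subsingleton_iff.2 htop
    rw [ringKrullDim_eq_bot_of_subsingleton]
    exact bot_le
  have hnt : Nontrivial (RP T α β γ ⧸ cP T α β γ) := Ideal.Quotient.nontrivial_iff.2 htop
  have hL2 : IsLocalRing (RP T α β γ ⧸ cP T α β γ) :=
    IsLocalRing.of_surjective' (Ideal.Quotient.mk _) Ideal.Quotient.mk_surjective
  refine dimLe (Ideal.Quotient.mk (cP T α β γ) (toRP (emb γ : RR T α β γ) + tt)) ?_ ?_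
  · intro hu
    have hγm : γ ∈ maximalIdeal T := by rw [hm]; exact Ideal.subset_span (by simp)
    have hαm : α ∈ maximalIdeal T := by rw [hm]; exact Ideal.subset_span (by simp)
    have hβm : β ∈ maximalIdeal T := by rw [hm]; exact Ideal.subset_span (by simp)
    have hker : ∀ f ∈ cP T α β γ, ((residue T).comp (phi (α := α) (β := β) (γ := γ))) f = 0 := by
      intro f hf
      have h1 : phi f ∈ (Ideal.span {α, β} : Ideal T) := cP_le hf
      have h2 : (Ideal.span {α, β} : Ideal T) ≤ maximalIdeal T := by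
        rw [Ideal.span_le]
        rintro t (rfl | rfl)
        · exact hαm
        · exact hβm
      rw [RingHom.comp_apply, residue_eq_zero_iff]
      exact h2 h1
    have h1 := hu.map (Ideal.Quotient.lift (cP T α β γ) _ hker)
    rw [Ideal.Quotient.lift_mk, RingHom.comp_apply, map_add, phi_toRP, phi_tt, add_zero] at h1
    have h2 : residue T (emb γ : RR T α β γ).a = 0 := (residue_eq_zero_iff _).2 hγm
    rw [h2] at h1
    exact not_isUnit_zero h1
  · intro Q hQ hgQ
    have h1 : (Q.comap (Ideal.Quotient.mk (cP T α β γ))).IsPrime := Ideal.comap_isPrime _ _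
    have h2 : cP T α β γ ≤ Q.comap (Ideal.Quotient.mk (cP T α β γ)) := by
      intro f hf
      rw [Ideal.mem_comap, Ideal.Quotient.eq_zero_iff_mem.2 hf]
      exact Q.zero_mem
    have h3 := max_of hm _ h1 h2 hgQ
    have h5 := Ideal.map_comap_of_surjective (Ideal.Quotient.mk (cP T α β γ))
      Ideal.Quotient.mk_surjective Q
    rcases Ideal.map_eq_top_or_isMaximal_of_surjective (Ideal.Quotient.mk (cP T α β γ))
      Ideal.Quotient.mk_surjective h3 with h6 | h6
    · rw [h5] at h6
      exact absurd h6 hQ.ne_top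
    · rw [h5] at h6
      exact h6

theorem dimRP [IsLocalRing T] [IsNoetherianRing T] [IsDomain T] (hB : Base T α β γ) :
    (4 : WithBot ℕ∞) ≤ ringKrullDim (RP T α β γ) := by
  have h1 := H51R3.PS.dimA hB
  have h2 : ringKrullDim (RR T α β γ ⧸ (Ideal.span {RR.s} : Ideal (RR T α β γ))) + 1 ≤
      ringKrullDim (PowerSeries (RR T α β γ ⧸ (Ideal.span {RR.s} : Ideal (RR T α β γ)))) :=
    ringKrullDim_succ_le_ringKrullDim_powerseries
  have h3 : ringKrullDim (PowerSeries (RR T α β γ ⧸ (Ideal.span {RR.s} : Ideal (RR T α β γ)))) ≤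
      ringKrullDim (RP T α β γ) := by
    refine ringKrullDim_le_of_surjective (Ideal.Quotient.lift _
      (PowerSeries.map (Ideal.Quotient.mk (Ideal.span {RR.s} : Ideal (RR T α β γ)))) ?_) ?_
    · intro f hf
      rw [Ideal.mem_span_singleton] at hf
      obtain ⟨c, rfl⟩ := hf
      rw [map_mul, map_mul, PowerSeries.map_C]
      have : Ideal.Quotient.mk (Ideal.span {RR.s} : Ideal (RR T α β γ)) RR.s = 0 :=
        Ideal.Quotient.eq_zero_iff_mem.2 (Ideal.mem_span_singleton_self _)
      rw [this, map_zero, zero_mul, zero_mul]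
    · refine Ideal.Quotient.lift_surjective_of_surjective _ _ ?_
      exact PowerSeries.map_surjective _ Ideal.Quotient.mk_surjective
  calc (4 : WithBot ℕ∞) = 3 + 1 := by norm_num
    _ ≤ _ := add_le_add h1 le_rfl
    _ ≤ _ := h2
    _ ≤ _ := h3

theorem taskDimP : TaskDimP := by
  intro T _ _ _ _ α β γ hB
  obtain ⟨hα, hβ, hγ⟩ := H51R3.PS.mem_max hB
  have hloc : IsLocalRing (RR T α β γ) := Pool.Agent.H607R3.PS.taskLoc T α β γ hα hβ hγ
  calc (2 : WithBot ℕ∞) + ringKrullDim (RP T α β γ ⧸ cP T α β γ) ≤ 2 + 1 :=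
        add_le_add le_rfl (dimQ hB.max hloc)
    _ < 4 := by
        have : (2 : WithBot ℕ∞) + 1 = 3 := by norm_num
        rw [this]
        exact_mod_cast (by decide : (3 : ℕ) < 4)
    _ ≤ _ := dimRP hB

end Pool.Agent.U329.PSG
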