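import Mathlib
import Pool.Agent.H520R3.MG4

set_option autoImplicit false

/-! The decoupled Markov group conjecture from the Markov group conjecture on `ℓ¹` (starting module
`H520R3/MG4`), by a block diagonal operator. -/

namespace Pool.Agent.U329.DMG

open H520R3.MG Filter Topology

theorem summ_col (v : ℕ → E) (B : ℝ) (hB : ∀ j, ‖v j‖ ≤ B) (x : E) :
    Summable fun j => x j • v j := by
  refine Summable.of_norm_bounded ((summ x).mul_right B) fun n => ?_
  rw [norm_smul, Real.norm_eq_abs]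
  exact mul_le_mul_of_nonneg_left (hB n) (abs_nonneg _)

/-- the operator with columns `v` -/
noncomputable def op (v : ℕ → E) (B : ℝ) (hB : ∀ j, ‖v j‖ ≤ B) : E →L[ℝ] E :=
  LinearMap.mkContinuous
    { toFun := fun x => ∑' j, x j • v j
      map_add' := fun x y => by
        rw [← (summ_col v B hB x).tsum_add (summ_col v B hB y)]
        refine tsum_congr fun n => ?_
        rw [lp.coeFn_add, Pi.add_apply, add_smul]
      map_smul' := fun a x => by
        rw [RingHom.id_apply, ← (summ_col v B hB x).tsum_const_smul a]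
        refine tsum_congr fun n => ?_
        rw [lp.coeFn_smul, Pi.smul_apply, smul_eq_mul, mul_smul] } B (fun x => by
      change ‖∑' j, x j • v j‖ ≤ B * ‖x‖
      rw [norm_eq x, ← tsum_mul_left]
      refine tsum_of_norm_bounded ((summ x).mul_left B).hasSum fun n => ?_
      rw [norm_smul, Real.norm_eq_abs, mul_comm]
      exact mul_le_mul_of_nonneg_right (hB n) (abs_nonneg _))

theorem op_apply (v : ℕ → E) (B : ℝ) (hB : ∀ j, ‖v j‖ ≤ B) (x : E) :
    op v B hB x = ∑' j, x j • v j := rfl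

theorem op_hasSum (v : ℕ → E) (B : ℝ) (hB : ∀ j, ‖v j‖ ≤ B) (x : E) :
    HasSum (fun j => x j • v j) (op v B hB x) := (summ_col v B hB x).hasSum

theorem op_e (v : ℕ → E) (B : ℝ) (hB : ∀ j, ‖v j‖ ≤ B) (j : ℕ) : op v B hB (e j) = v j := by
  rw [op_apply, tsum_eq_single j]
  · rw [e_self, one_smul]
  · intro i hi
    rw [e_ne hi, zero_smul]

theorem ext_e {A C : E →L[ℝ] E} (h : ∀ j, A (e j) = C (e j)) : A = C := by
  ext1 x
  have h1 := (hasSum_e x).mapL A
  have h2 := (hasSum_e x).mapL C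
  have h3 : (fun i => A (x i • e i)) = fun i => C (x i • e i) := by
    funext i
    rw [map_smul, map_smul, h]
  rw [h3] at h1
  exact h1.unique h2

theorem ev_apply (n : ℕ) (y : E) : pairL (ind {n}) y = y n := by
  rw [pairL_apply, tsum_eq_single n]
  · rw [ind_of_mem (Set.mem_singleton n), mul_one]
  · intro m hm
    rw [ind_of_notMem (by simpa using hm), mul_zero]

theorem norm_pos' {y : E} (hy : ∀ n, 0 ≤ y n) : ‖y‖ = pairL 1 y := by
  rw [norm_eq, pairL_apply]
  refine tsum_congr fun n => ?_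
  rw [abs_of_nonneg (hy n)]
  simp

theorem op_nonneg {v : ℕ → E} {B : ℝ} {hB : ∀ j, ‖v j‖ ≤ B} (hv : ∀ j n, 0 ≤ v j n) {x : E}
    (hx : ∀ n, 0 ≤ x n) (n : ℕ) : 0 ≤ (op v B hB x) n := by
  have h := (op_hasSum v B hB x).mapL (pairL (ind {n}))
  rw [ev_apply] at h
  refine h.nonneg fun j => ?_
  rw [ev_apply, lp.coeFn_smul, Pi.smul_apply, smul_eq_mul]
  exact mul_nonneg (hx j) (hv j n)

theorem op_norm {v : ℕ → E} {B : ℝ} {hB : ∀ j, ‖v j‖ ≤ B} (hv : ∀ j n, 0 ≤ v j n)
    (hv1 : ∀ j, pairL 1 (v j) = 1) {x : E} (hx : ∀ n, 0 ≤ x n) : ‖op v B hB x‖ = ‖x‖ := by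
  rw [norm_pos' (op_nonneg hv hx), norm_pos' hx]
  have h := (op_hasSum v B hB x).mapL (pairL 1)
  have h2 := (hasSum_e x).mapL (pairL 1)
  have h3 : (fun j => pairL 1 (x j • v j)) = fun j => pairL 1 (x j • e j) := by
    funext j
    rw [map_smul, map_smul, hv1 j, pairL_e]
    simp
  rw [h3] at h
  exact h.unique h2

/-! ## block diagonal operators -/

section block

variable {d : ℕ → ℕ} (φ : ℕ ≃ Σ n, Fin (d n))

/-- the columns of the block diagonal operator -/
noncomputable def col (K : ∀ n, Matrix (Fin (d n)) (Fin (d n)) ℝ) (k : ℕ) : E :=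
  ∑ a : Fin (d (φ k).1), K (φ k).1 a (φ k).2 • e (φ.symm ⟨(φ k).1, a⟩)

theorem col_symm (K : ∀ n, Matrix (Fin (d n)) (Fin (d n)) ℝ) (n : ℕ) (b : Fin (d n)) :
    col φ K (φ.symm ⟨n, b⟩) = ∑ a : Fin (d n), K n a b • e (φ.symm ⟨n, a⟩) := by
  have key : ∀ s : (Σ n, Fin (d n)), s = ⟨n, b⟩ →
      ∑ a : Fin (d s.1), K s.1 a s.2 • e (φ.symm ⟨s.1, a⟩) =
        ∑ a : Fin (d n), K n a b • e (φ.symm ⟨n, a⟩) := by
    rintro s rfl
    rfl
  exact key _ (φ.apply_symm_apply _)

theorem norm_col_le (K : ∀ n, Matrix (Fin (d n)) (Fin (d n)) ℝ) (B : ℝ)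
    (hB : ∀ n b, ∑ a, |K n a b| ≤ B) (k : ℕ) : ‖col φ K k‖ ≤ B := by
  refine le_trans (norm_sum_le _ _) (le_trans (le_of_eq ?_) (hB (φ k).1 (φ k).2))
  refine Finset.sum_congr rfl fun a _ => ?_
  rw [norm_smul, norm_e, mul_one, Real.norm_eq_abs]

/-- the block diagonal operator -/
noncomputable def bop (K : ∀ n, Matrix (Fin (d n)) (Fin (d n)) ℝ) (B : ℝ)
    (hB : ∀ n b, ∑ a, |K n a b| ≤ B) : E →L[ℝ] E :=
  op (col φ K) B (norm_col_le φ K B hB)

theorem bop_e (K : ∀ n, Matrix (Fin (d n)) (Fin (d n)) ℝ) (B : ℝ)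
    (hB : ∀ n b, ∑ a, |K n a b| ≤ B) (n : ℕ) (b : Fin (d n)) :
    bop φ K B hB (e (φ.symm ⟨n, b⟩)) = ∑ a : Fin (d n), K n a b • e (φ.symm ⟨n, a⟩) := by
  rw [bop, op_e, col_symm]

theorem ext_b {A C : E →L[ℝ] E} (h : ∀ n b, A (e (φ.symm ⟨n, b⟩)) = C (e (φ.symm ⟨n, b⟩))) :
    A = C := by
  refine ext_e fun j => ?_
  obtain ⟨⟨n, b⟩, rfl⟩ := φ.symm.surjective j
  exact h n b

theorem bop_mul (K L N : ∀ n, Matrix (Fin (d n)) (Fin (d n)) ℝ) (B C D : ℝ)
    (hB : ∀ n b, ∑ a, |K n a b| ≤ B) (hC : ∀ n b, ∑ a, |L n a b| ≤ C)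
    (hD : ∀ n b, ∑ a, |N n a b| ≤ D) (h : ∀ n, N n = K n * L n) :
    bop φ N D hD = (bop φ K B hB).comp (bop φ L C hC) := by
  refine ext_b φ fun n b => ?_
  rw [ContinuousLinearMap.comp_apply, bop_e, bop_e, map_sum]
  simp_rw [map_smul, bop_e, Finset.smul_sum, smul_smul]
  rw [Finset.sum_comm]
  refine Finset.sum_congr rfl fun a _ => ?_
  rw [h n, Matrix.mul_apply, Finset.sum_smul]
  refine Finset.sum_congr rfl fun c _ => ?_
  rw [mul_comm]

theorem bop_one (K : ∀ n, Matrix (Fin (d n)) (Fin (d n)) ℝ) (B : ℝ)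
    (hB : ∀ n b, ∑ a, |K n a b| ≤ B) (h : ∀ n, K n = 1) :
    bop φ K B hB = ContinuousLinearMap.id ℝ E := by
  refine ext_b φ fun n b => ?_
  rw [bop_e, h n, ContinuousLinearMap.id_apply]
  rw [Finset.sum_eq_single b]
  · rw [Matrix.one_apply_eq, one_smul]
  · intro a _ ha
    rw [Matrix.one_apply_ne ha, zero_smul]
  · intro h
    exact absurd (Finset.mem_univ _) h

theorem col_nonneg (K : ∀ n, Matrix (Fin (d n)) (Fin (d n)) ℝ) (hK : ∀ n a b, 0 ≤ K n a b)
    (k m : ℕ) : 0 ≤ col φ K k m := by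
  rw [← ev_apply, col, map_sum]
  refine Finset.sum_nonneg fun a _ => ?_
  rw [map_smul, ev_apply, smul_eq_mul]
  exact mul_nonneg (hK _ _ _) (e_nonneg _ _)

theorem col_one (K : ∀ n, Matrix (Fin (d n)) (Fin (d n)) ℝ) (hK : ∀ n b, ∑ a, K n a b = 1)
    (k : ℕ) : pairL 1 (col φ K k) = 1 := by
  rw [col, map_sum, ← hK (φ k).1 (φ k).2]
  refine Finset.sum_congr rfl fun a _ => ?_
  rw [map_smul, pairL_e]
  simp

/-- lower bound for the norm of a column difference -/
theorem le_norm_diff (K L : ∀ n, Matrix (Fin (d n)) (Fin (d n)) ℝ) (n : ℕ) (b : Fin (d n)) :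
    ∑ a, |K n a b - L n a b| ≤ ‖(∑ a : Fin (d n), K n a b • e (φ.symm ⟨n, a⟩)) -
      ∑ a : Fin (d n), L n a b • e (φ.symm ⟨n, a⟩)‖ := by
  set y : E := (∑ a : Fin (d n), K n a b • e (φ.symm ⟨n, a⟩)) -
      ∑ a : Fin (d n), L n a b • e (φ.symm ⟨n, a⟩) with hy
  have hcoord : ∀ a : Fin (d n), y (φ.symm ⟨n, a⟩) = K n a b - L n a b := by
    intro a
    rw [← ev_apply, hy, map_sub, map_sum, map_sum]
    have h1 : ∀ J : ∀ n, Matrix (Fin (d n)) (Fin (d n)) ℝ,
        ∑ x : Fin (d n), pairL (ind {φ.symm ⟨n, a⟩}) (J n x b • e (φ.symm ⟨n, x⟩)) = J n a b := by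
      intro J
      rw [Finset.sum_eq_single a]
      · rw [map_smul, ev_apply, e_self, smul_eq_mul, mul_one]
      · intro c _ hc
        rw [map_smul, ev_apply, e_ne, smul_zero]
        intro h
        have h2 := φ.symm.injective h
        rw [Sigma.mk.injEq] at h2
        exact hc (eq_of_heq h2.2).symm
      · intro h
        exact absurd (Finset.mem_univ _) h
    rw [h1 K, h1 L]
  have hinj : Function.Injective fun a : Fin (d n) => φ.symm ⟨n, a⟩ := by
    intro a c h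
    have h2 := φ.symm.injective h
    rw [Sigma.mk.injEq] at h2
    exact eq_of_heq h2.2
  rw [norm_eq]
  calc ∑ a, |K n a b - L n a b| = ∑ a : Fin (d n), |y (φ.symm ⟨n, a⟩)| := by
        refine Finset.sum_congr rfl fun a _ => ?_
        rw [hcoord]
    _ = ∑ m ∈ Finset.univ.image (fun a : Fin (d n) => φ.symm ⟨n, a⟩), |y m| := by
        rw [Finset.sum_image]
        intro a _ c _ h
        exact hinj h
    _ ≤ ∑' m, |y m| := (summ y).sum_le_tsum _ (fun _ _ => abs_nonneg _)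

end block

/-- growth from doubling -/
theorem seq_bound (a : ℕ → ℝ) (h0 : ∀ k, 0 ≤ a k) (h1 : ∀ k, a k ≤ 1 / 2)
    (h2 : ∀ k, 2 * a (k + 1) ≤ a k + a (k + 1) ^ 2) (k : ℕ) : 2 ^ k * a k ≤ 3 / 2 := by
  have h3 : ∀ k, a k ≤ (2 / 3) ^ k / 2 := by
    intro k
    induction k with
    | zero => simpa using h1 0
    | succ k ih =>
      have h4 : a (k + 1) ^ 2 ≤ 1 / 2 * a (k + 1) := by
        rw [pow_two]
        exact mul_le_mul_of_nonneg_right (h1 _) (h0 _)
      have h5 := h2 k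
      rw [pow_succ]
      linarith
  have h4 : ∀ k, 2 ^ k * a k ≤ 3 / 2 - (8 / 9 : ℝ) ^ k := by
    intro k
    induction k with
    | zero =>
      have := h1 0
      norm_num
      linarith
    | succ k ih =>
      have h5 := h2 k
      have h6 := h3 (k + 1)
      have h7 : a (k + 1) ^ 2 ≤ ((2 / 3 : ℝ) ^ (k + 1) / 2) ^ 2 :=
        pow_le_pow_left₀ (h0 _) h6 2
      have h8 : (2 : ℝ) ^ k * ((2 / 3 : ℝ) ^ (k + 1) / 2) ^ 2 = 1 / 9 * (8 / 9) ^ k := by
        have e1 : ((8 : ℝ) / 9) ^ k = 2 ^ k * ((2 / 3) ^ k) ^ 2 := by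
          rw [← pow_mul, mul_comm k 2, pow_mul, ← mul_pow]
          norm_num
        rw [e1, pow_succ]
        ring
      have h9 : (0 : ℝ) < 2 ^ k := by positivity
      calc (2 : ℝ) ^ (k + 1) * a (k + 1) = 2 ^ k * (2 * a (k + 1)) := by rw [pow_succ]; ring
        _ ≤ 2 ^ k * (a k + a (k + 1) ^ 2) := mul_le_mul_of_nonneg_left h5 h9.le
        _ = 2 ^ k * a k + 2 ^ k * a (k + 1) ^ 2 := by ring
        _ ≤ (3 / 2 - (8 / 9 : ℝ) ^ k) + 2 ^ k * ((2 / 3 : ℝ) ^ (k + 1) / 2) ^ 2 :=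
            add_le_add ih (mul_le_mul_of_nonneg_left h7 h9.le)
        _ = 3 / 2 - (8 / 9 : ℝ) ^ (k + 1) := by rw [h8, pow_succ]; ring
  have := h4 k
  have h5 : (0 : ℝ) < (8 / 9) ^ k := by positivity
  linarith

/-! ## matrix exponential -/

section mat

variable {m : ℕ} (Q : Matrix (Fin m) (Fin m) ℝ)

theorem exp_deriv (t : ℝ) (a b : Fin m) :
    HasDerivAt (fun t : ℝ => NormedSpace.exp (t • Q) a b) ((NormedSpace.exp (t • Q) * Q) a b) t := by
  let : NormedRing (Matrix (Fin m) (Fin m) ℝ) := Matrix.linftyOpNormedRing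
  let : NormedAlgebra ℝ (Matrix (Fin m) (Fin m) ℝ) := Matrix.linftyOpNormedAlgebra
  have h := (hasDerivAt_exp_smul_const (𝕂 := ℝ) Q t).tendsto_slope
  rw [hasDerivAt_iff_tendsto_slope]
  have h5 := ((continuous_apply b).tendsto _).comp
    (((continuous_apply a).tendsto (NormedSpace.exp (t • Q) * Q)).comp h)
  refine h5.congr fun k => ?_
  change (slope (fun t : ℝ => NormedSpace.exp (t • Q)) t k) a b = _
  rw [slope_def_module, slope_def_module]
  rfl

theorem exp_cont (a b : Fin m) : Continuous fun t : ℝ => NormedSpace.exp (t • Q) a b :=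
  continuous_iff_continuousAt.2 fun t => (exp_deriv Q t a b).continuousAt

theorem exp_slope (a b : Fin m) (s : ℕ → ℝ) (hs : Tendsto s atTop (𝓝 0)) (hs0 : ∀ k, s k ≠ 0) :
    Tendsto (fun k => (s k)⁻¹ * (NormedSpace.exp (s k • Q) a b - (1 : Matrix (Fin m) (Fin m) ℝ) a b))
      atTop (𝓝 (Q a b)) := by
  have h := exp_deriv Q 0 a b
  rw [zero_smul, NormedSpace.exp_zero, one_mul] at h
  have h2 := h.tendsto_slope
  have h3 : Tendsto s atTop (𝓝[≠] 0) := by
    rw [tendsto_nhdsWithin_iff]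
    exact ⟨hs, Eventually.of_forall hs0⟩
  refine (h2.comp h3).congr fun k => ?_
  change slope (fun t : ℝ => NormedSpace.exp (t • Q) a b) 0 (s k) = _
  rw [slope_def_module, sub_zero, zero_smul, NormedSpace.exp_zero]
  rfl

end mat

theorem core (M : ℝ) (hM : 1 ≤ M) (d : ℕ → ℕ) (Q : ∀ n, Matrix (Fin (d n)) (Fin (d n)) ℝ)
    (hinv : ∀ n (j : Fin (d n)), ∑ i, |NormedSpace.exp (-(Q n)) i j| ≤ M)
    (hst : ∀ n, ∀ t : ℝ, 0 ≤ t → (∀ i j, 0 ≤ NormedSpace.exp (t • Q n) i j) ∧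
      ∀ j, ∑ i, NormedSpace.exp (t • Q n) i j = 1)
    (j0 : ∀ n, Fin (d n)) : ∃ C : ℝ, ∀ n b, ∑ a, |Q n a b| ≤ C := by
  have hinf : Infinite (Σ n, Fin (d n)) :=
    Infinite.of_injective (fun n : ℕ => (⟨n, j0 n⟩ : Σ n, Fin (d n)))
      (fun a b h => congrArg Sigma.fst h)
  obtain ⟨φ⟩ : Nonempty (ℕ ≃ Σ n, Fin (d n)) := nonempty_equiv_of_countable
  -- the semigroup
  have hb : ∀ t : NNReal, ∀ n b, ∑ a, |NormedSpace.exp ((t : ℝ) • Q n) a b| ≤ 1 := by
    intro t n b
    obtain ⟨h1, h2⟩ := hst n t t.2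
    rw [← h2 b]
    refine le_of_eq (Finset.sum_congr rfl fun a _ => abs_of_nonneg (h1 a b))
  let T : NNReal → (E →L[ℝ] E) := fun t =>
    bop φ (fun n => NormedSpace.exp ((t : ℝ) • Q n)) 1 (hb t)
  have hT0 : T 0 = ContinuousLinearMap.id ℝ E := by
    refine bop_one φ _ _ _ fun n => ?_
    rw [NNReal.coe_zero, zero_smul, NormedSpace.exp_zero]
  have hTadd : ∀ s t : NNReal, T (s + t) = (T s).comp (T t) := by
    intro s t
    refine bop_mul φ (fun n => NormedSpace.exp ((s : ℝ) • Q n))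
      (fun n => NormedSpace.exp ((t : ℝ) • Q n)) _ _ _ _ _ _ _ fun n => ?_
    rw [NNReal.coe_add, add_smul]
    exact Matrix.exp_add_of_commute _ _ (((Commute.refl (Q n)).smul_left _).smul_right _)
  have hTc : ∀ x : E, Continuous fun t : NNReal => T t x := by
    intro x
    change Continuous fun t : NNReal => ∑' j, x j • col φ (fun n => NormedSpace.exp ((t : ℝ) • Q n)) j
    have hcol : ∀ j, Continuous fun t : NNReal =>
        col φ (fun n => NormedSpace.exp ((t : ℝ) • Q n)) j := by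
      intro j
      unfold col
      refine continuous_finsetSum _ fun a _ => ?_
      have h1 : Continuous fun t : NNReal => NormedSpace.exp ((t : ℝ) • Q (φ j).1) a (φ j).2 :=
        (exp_cont (Q (φ j).1) a (φ j).2).comp NNReal.continuous_coe
      exact h1.smul continuous_const
    refine continuous_tsum (u := fun j => |x j|) (fun j => ?_) (summ x) (fun j t => ?_)
    · exact (continuous_const (y := x j)).smul (hcol j)
    · rw [norm_smul, Real.norm_eq_abs]
      refine mul_le_of_le_one_right (abs_nonneg _) (norm_col_le φ _ 1 (hb t) j)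
  have hTpos : ∀ (t : NNReal) (x : E), (∀ n, 0 ≤ x n) → ∀ n, 0 ≤ (T t x) n := by
    intro t x hx n
    exact op_nonneg (fun j m => col_nonneg φ _ (fun n a b => (hst n t t.2).1 a b) j m) hx n
  have hTnorm : ∀ (t : NNReal) (x : E), (∀ n, 0 ≤ x n) → ‖T t x‖ = ‖x‖ := by
    intro t x hx
    exact op_norm (fun j m => col_nonneg φ _ (fun n a b => (hst n t t.2).1 a b) j m)
      (fun j => col_one φ _ (fun n b => (hst n t t.2).2 b) j) hx
  have hTbij : Function.Bijective (T 1) := by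
    have e1 : (T 1).comp (bop φ (fun n => NormedSpace.exp (-(Q n))) M hinv) =
        ContinuousLinearMap.id ℝ E := by
      rw [← bop_one φ (fun n => (1 : Matrix (Fin (d n)) (Fin (d n)) ℝ)) 1 ?_ (fun n => rfl)]
      · symm
        refine bop_mul φ _ _ _ _ _ _ _ _ _ fun n => ?_
        rw [NNReal.coe_one, one_smul, ← Matrix.exp_add_of_commute _ _ (Commute.neg_right (Commute.refl (Q n))),
          add_neg_cancel, NormedSpace.exp_zero]
      · intro n b
        have := hb 0 n b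
        rwa [NNReal.coe_zero, zero_smul, NormedSpace.exp_zero] at this
    have e2 : (bop φ (fun n => NormedSpace.exp (-(Q n))) M hinv).comp (T 1) =
        ContinuousLinearMap.id ℝ E := by
      rw [← bop_one φ (fun n => (1 : Matrix (Fin (d n)) (Fin (d n)) ℝ)) 1 ?_ (fun n => rfl)]
      · symm
        refine bop_mul φ _ _ _ _ _ _ _ _ _ fun n => ?_
        rw [NNReal.coe_one, one_smul, ← Matrix.exp_add_of_commute _ _ (Commute.neg_left (Commute.refl (Q n))),
          neg_add_cancel, NormedSpace.exp_zero]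
      · intro n b
        have := hb 0 n b
        rwa [NNReal.coe_zero, zero_smul, NormedSpace.exp_zero] at this
    constructor
    · intro x y hxy
      have h1 := congrArg (bop φ (fun n => NormedSpace.exp (-(Q n))) M hinv) hxy
      rw [← ContinuousLinearMap.comp_apply, ← ContinuousLinearMap.comp_apply, e2] at h1
      exact h1
    · intro y
      refine ⟨bop φ (fun n => NormedSpace.exp (-(Q n))) M hinv y, ?_⟩
      rw [← ContinuousLinearMap.comp_apply, e1]
      rfl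
  have hlim := H520R3.MG.main T hT0 hTadd hTc hTpos hTnorm hTbij
  rw [Metric.tendsto_nhds] at hlim
  have h1 := hlim (1 / 2) (by norm_num)
  rw [Metric.eventually_nhds_iff] at h1
  obtain ⟨δ, hδ, h2⟩ := h1
  -- the step
  let s : ℕ → NNReal := fun k => ⟨δ / 2 / 2 ^ k, by positivity⟩
  have hs : ∀ k, ((s k : NNReal) : ℝ) = δ / 2 / 2 ^ k := fun k => rfl
  have hs2 : ∀ k, s k = s (k + 1) + s (k + 1) := by
    intro k
    apply NNReal.coe_injective
    rw [NNReal.coe_add, hs, hs, pow_succ]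
    field_simp
    norm_num
  have hsle : ∀ k, ((s k : NNReal) : ℝ) < δ := by
    intro k
    rw [hs]
    have h3 : δ / 2 / 2 ^ k ≤ δ / 2 := div_le_self (by positivity) (one_le_pow₀ (by norm_num))
    linarith
  let a : ℕ → ℝ := fun k => ‖T (s k) - ContinuousLinearMap.id ℝ E‖
  have ha1 : ∀ k, a k ≤ 1 / 2 := by
    intro k
    have h3 : dist (s k) 0 < δ := by
      have h5 : |((s k : NNReal) : ℝ)| = ((s k : NNReal) : ℝ) := abs_of_nonneg (s k).2
      rw [NNReal.dist_eq, NNReal.coe_zero, sub_zero, h5]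
      exact hsle k
    have h4 := h2 h3
    rw [dist_eq_norm] at h4
    exact h4.le
  have ha2 : ∀ k, 2 * a (k + 1) ≤ a k + a (k + 1) ^ 2 := by
    intro k
    set D := T (s (k + 1)) - ContinuousLinearMap.id ℝ E with hD
    have h3 : T (s k) - ContinuousLinearMap.id ℝ E = (2 : ℝ) • D + D.comp D := by
      rw [hs2 k, hTadd, hD]
      ext1 x
      simp only [ContinuousLinearMap.sub_apply, ContinuousLinearMap.comp_apply,
        ContinuousLinearMap.id_apply, ContinuousLinearMap.add_apply,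
        ContinuousLinearMap.smul_apply, map_sub]
      rw [two_smul]
      abel
    have h4 : (2 : ℝ) • D = (T (s k) - ContinuousLinearMap.id ℝ E) - D.comp D := by
      rw [h3]; abel
    have h5 : ‖(2 : ℝ) • D‖ ≤ ‖T (s k) - ContinuousLinearMap.id ℝ E‖ + ‖D‖ * ‖D‖ := by
      rw [h4]
      exact (norm_sub_le _ _).trans (add_le_add le_rfl (ContinuousLinearMap.opNorm_comp_le D D))
    rw [norm_smul, Real.norm_eq_abs, abs_of_pos (by norm_num : (0 : ℝ) < 2)] at h5
    change 2 * ‖D‖ ≤ _ + ‖D‖ ^ 2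
    rw [pow_two]
    exact h5
  have ha : ∀ k, 2 ^ k * a k ≤ 3 / 2 := seq_bound a (fun k => norm_nonneg _) ha1 ha2
  refine ⟨3 / δ, fun n b => ?_⟩
  have hs0 : ∀ k, ((s k : NNReal) : ℝ) ≠ 0 := by
    intro k
    rw [hs]
    positivity
  have hst0 : Tendsto (fun k => ((s k : NNReal) : ℝ)) atTop (𝓝 0) := by
    have h3 : Tendsto (fun k : ℕ => δ / 2 * (1 / 2 : ℝ) ^ k) atTop (𝓝 (δ / 2 * 0)) :=
      (tendsto_pow_atTop_nhds_zero_of_lt_one (by norm_num) (by norm_num)).const_mul _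
    rw [mul_zero] at h3
    refine h3.congr fun k => ?_
    rw [hs, one_div, inv_pow, ← div_eq_mul_inv]
  have hten : Tendsto (fun k => ∑ i, |((s k : NNReal) : ℝ)⁻¹ *
      (NormedSpace.exp (((s k : NNReal) : ℝ) • Q n) i b -
        (1 : Matrix (Fin (d n)) (Fin (d n)) ℝ) i b)|) atTop (𝓝 (∑ i, |Q n i b|)) :=
    tendsto_finsetSum _ fun i _ => (exp_slope (Q n) i b _ hst0 hs0).abs
  refine le_of_tendsto hten (Eventually.of_forall fun k => ?_)
  have hpos : (0 : ℝ) < (s k : NNReal) := by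
    rw [hs]; positivity
  have h3 := le_norm_diff φ (fun n => NormedSpace.exp (((s k : NNReal) : ℝ) • Q n))
    (fun n => (1 : Matrix (Fin (d n)) (Fin (d n)) ℝ)) n b
  have h4 : (∑ a : Fin (d n), NormedSpace.exp (((s k : NNReal) : ℝ) • Q n) a b •
      e (φ.symm ⟨n, a⟩)) - ∑ a : Fin (d n), (1 : Matrix (Fin (d n)) (Fin (d n)) ℝ) a b •
      e (φ.symm ⟨n, a⟩) = (T (s k) - ContinuousLinearMap.id ℝ E) (e (φ.symm ⟨n, b⟩)) := by
    rw [ContinuousLinearMap.sub_apply, ContinuousLinearMap.id_apply]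
    congr 1
    · exact (bop_e φ (fun n => NormedSpace.exp (((s k : NNReal) : ℝ) • Q n)) 1 (hb (s k)) n b).symm
    · rw [Finset.sum_eq_single b]
      · rw [Matrix.one_apply_eq, one_smul]
      · intro a _ ha
        rw [Matrix.one_apply_ne ha, zero_smul]
      · intro h
        exact absurd (Finset.mem_univ _) h
  have h5 : ∑ i, |NormedSpace.exp (((s k : NNReal) : ℝ) • Q n) i b -
        (1 : Matrix (Fin (d n)) (Fin (d n)) ℝ) i b| ≤ a k := by
    refine h3.trans ?_
    rw [h4]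
    refine (ContinuousLinearMap.le_opNorm _ _).trans (le_of_eq ?_)
    rw [norm_e, mul_one]
  calc ∑ i, |((s k : NNReal) : ℝ)⁻¹ * (NormedSpace.exp (((s k : NNReal) : ℝ) • Q n) i b -
        (1 : Matrix (Fin (d n)) (Fin (d n)) ℝ) i b)|
      = ((s k : NNReal) : ℝ)⁻¹ * ∑ i, |NormedSpace.exp (((s k : NNReal) : ℝ) • Q n) i b -
        (1 : Matrix (Fin (d n)) (Fin (d n)) ℝ) i b| := by
        rw [Finset.mul_sum]
        refine Finset.sum_congr rfl fun i _ => ?_
        rw [abs_mul, abs_of_pos (inv_pos.2 hpos)]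
    _ ≤ ((s k : NNReal) : ℝ)⁻¹ * a k := mul_le_mul_of_nonneg_left h5 (inv_pos.2 hpos).le
    _ ≤ 3 / δ := by
        have h6 := ha k
        rw [hs, inv_mul_le_iff₀ (by positivity)]
        have h7 : δ / 2 / 2 ^ k * (3 / δ) = 3 / 2 / 2 ^ k := by
          field_simp
        rw [h7, le_div_iff₀ (by positivity), mul_comm]
        exact h6

end Pool.Agent.U329.DMG
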