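import Pool.Agent.K7.H39.Cube.Lower
import Pool.Agent.K7.H39.Cube.Shadow

set_option autoImplicit false
open MeasureTheory Filter Topology
open scoped Pointwise

namespace Pool.Agent.U329.CubeFin
open Pool.Agent.K7.H39.Cube

theorem interior_Q : (interior Q).Nonempty := by
  refine ⟨!₂[1/2, 1/2, 1/2], ?_⟩
  rw [mem_interior]
  refine ⟨{x : E3 | (0 < x 0 ∧ x 0 < 1) ∧ (0 < x 1 ∧ x 1 < 1) ∧ (0 < x 2 ∧ x 2 < 1)}, ?_, ?_, ?_⟩
  · rintro x ⟨⟨h1, h2⟩, ⟨h3, h4⟩, h5, h6⟩
    exact ⟨⟨h1.le, h2.le⟩, ⟨h3.le, h4.le⟩, h5.le, h6.le⟩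
  · have h : ∀ i : Fin 3, IsOpen {x : E3 | 0 < x i ∧ x i < 1} := by
      intro i
      have hc : Continuous (fun x : E3 => x i) := by fun_prop
      exact (isOpen_lt continuous_const hc).inter (isOpen_lt hc continuous_const)
    exact (h 0).inter ((h 1).inter (h 2))
  · refine ⟨?_, ?_, ?_, ?_⟩ <;> simp <;> norm_num

theorem lim_S : Tendsto (fun t : ℝ => (vol (Q + Metric.closedBall 0 t) - vol Q) / (2 * t))
    (𝓝[>] 0) (𝓝 3) := by
  have h : Tendsto (fun t : ℝ => 3 + 3 * Real.pi / 2 * t + ka 3 / 2 * t ^ 2) (𝓝[>] 0) (𝓝 3) := by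
    have : Tendsto (fun t : ℝ => 3 + 3 * Real.pi / 2 * t + ka 3 / 2 * t ^ 2) (𝓝 0)
        (𝓝 (3 + 3 * Real.pi / 2 * 0 + ka 3 / 2 * 0 ^ 2)) := by
      apply Continuous.tendsto
      fun_prop
    simp only [mul_zero, add_zero, ne_eq, OfNat.ofNat_ne_zero, not_false_eq_true, zero_pow] at this
    exact this.mono_left nhdsWithin_le_nhds
  apply h.congr'
  filter_upwards [self_mem_nhdsWithin] with t ht
  have ht' : 0 < t := ht
  rw [vol_Q_add_ball ht'.le, vol_Q]
  field_simp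
  ring

theorem proj_eq (u : E3) : (fun x : E3 => x - (inner ℝ u x) • u) '' Q = (P u) '' Q := by
  have : (fun x : E3 => x - (inner ℝ u x) • u) = fun x => P u x := by
    funext x
    rw [P_apply]
  rw [this]

theorem lim_L {u : E3} (hu : ‖u‖ = 1) {L : ℝ}
    (h : Tendsto (fun t : ℝ => (vol ((P u) '' Q + Metric.closedBall 0 t) - 2 * t * G Q u) /
      (Real.pi * t ^ 2)) (𝓝[>] 0) (𝓝 L)) :
    L = ‖P u (EuclideanSpace.single 0 1)‖ + ‖P u (EuclideanSpace.single 1 1)‖ +
      ‖P u (EuclideanSpace.single 2 1)‖ := by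
  have hseq : Tendsto (fun n : ℕ => (1 / (n : ℝ))) atTop (𝓝[>] 0) := by
    rw [tendsto_nhdsWithin_iff]
    refine ⟨tendsto_one_div_atTop_nhds_zero_nat, ?_⟩
    filter_upwards [eventually_gt_atTop 0] with n hn
    have : (0:ℝ) < n := by exact_mod_cast hn
    exact one_div_pos.2 this
  have h1 := h.comp hseq
  have h2 : Tendsto (fun n : ℕ => (‖P u (EuclideanSpace.single 0 1)‖ +
      ‖P u (EuclideanSpace.single 1 1)‖ + ‖P u (EuclideanSpace.single 2 1)‖) +
      ka 3 / Real.pi * (1 / (n : ℝ))) atTop (𝓝 ((‖P u (EuclideanSpace.single 0 1)‖ +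
      ‖P u (EuclideanSpace.single 1 1)‖ + ‖P u (EuclideanSpace.single 2 1)‖) + ka 3 / Real.pi * 0)) :=
    (tendsto_one_div_atTop_nhds_zero_nat.const_mul _).const_add _
  rw [mul_zero, add_zero] at h2
  refine tendsto_nhds_unique_of_eventuallyEq h1 h2 ?_
  filter_upwards [eventually_gt_atTop 0] with n hn
  have hn' : (0:ℝ) < n := by exact_mod_cast hn
  have hpi := Real.pi_pos
  simp only [Function.comp]
  rw [vol_proj_add_ball hu n hn]
  field_simp
  ring

theorem norm_eq {u : E3} (hu : ‖u‖ = 1) : u 0 ^ 2 + u 1 ^ 2 + u 2 ^ 2 = 1 := by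
  have h := EuclideanSpace.real_norm_sq_eq u
  rw [Fin.sum_univ_three, hu] at h
  linarith

theorem lower {u : E3} (hu : ‖u‖ = 1) :
    Real.pi / 5.5 ≤ Real.pi * G Q u / (‖P u (EuclideanSpace.single 0 1)‖ +
      ‖P u (EuclideanSpace.single 1 1)‖ + ‖P u (EuclideanSpace.single 2 1)‖) ^ 2 := by
  have hpi := Real.pi_pos
  obtain ⟨g1, g2, g3⟩ := G_ge (u := u)
  have hn := norm_eq hu
  have e0 := norm_P_single hu 0
  have e1 := norm_P_single hu 1
  have e2 := norm_P_single hu 2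
  have hi := ineq (a := |u 0|) (b := |u 1|) (c := |u 2|)
    (x := ‖P u (EuclideanSpace.single 0 1)‖) (y := ‖P u (EuclideanSpace.single 1 1)‖)
    (z := ‖P u (EuclideanSpace.single 2 1)‖) (m := G Q u)
    (abs_nonneg _) (abs_nonneg _) (abs_nonneg _) (norm_nonneg _) (norm_nonneg _) (norm_nonneg _)
    (by simp only [sq_abs]; exact hn) (by rw [sq_abs]; exact e0) (by rw [sq_abs]; exact e1)
    (by rw [sq_abs]; exact e2) g1 g2 g3
  have hpos : 0 < (‖P u (EuclideanSpace.single 0 1)‖ +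
      ‖P u (EuclideanSpace.single 1 1)‖ + ‖P u (EuclideanSpace.single 2 1)‖) ^ 2 := by
    have a := norm_nonneg (P u (EuclideanSpace.single 0 1))
    have b := norm_nonneg (P u (EuclideanSpace.single 1 1))
    have c := norm_nonneg (P u (EuclideanSpace.single 2 1))
    nlinarith [mul_nonneg a b, mul_nonneg b c, mul_nonneg a c]
  rw [div_le_div_iff₀ (by norm_num) hpos]
  nlinarith

theorem contra (H : ∀ (K : Set (EuclideanSpace ℝ (Fin 3))) (c : ℝ),
    IsCompact K → Convex ℝ K → (interior K).Nonempty →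
    (∀ u ∈ Metric.sphere (0 : EuclideanSpace ℝ (Fin 3)) 1, ∀ L : ℝ,
      Filter.Tendsto (fun t : ℝ =>
        ((volume ((fun x : EuclideanSpace ℝ (Fin 3) => x - (inner ℝ u x) • u) '' K
              + Metric.closedBall (0 : EuclideanSpace ℝ (Fin 3)) t)).toReal
          - 2 * t * ((volume (K + segment ℝ (0 : EuclideanSpace ℝ (Fin 3)) u)).toReal
              - (volume K).toReal)) / (Real.pi * t ^ 2))
        (nhdsWithin 0 (Set.Ioi 0)) (nhds L) →
      c ≤ Real.pi * ((volume (K + segment ℝ (0 : EuclideanSpace ℝ (Fin 3)) u)).toReal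
              - (volume K).toReal) / L ^ 2) →
    ∀ S : ℝ,
      Filter.Tendsto (fun t : ℝ =>
        ((volume (K + Metric.closedBall (0 : EuclideanSpace ℝ (Fin 3)) t)).toReal
          - (volume K).toReal) / (2 * t))
        (nhdsWithin 0 (Set.Ioi 0)) (nhds S) →
      c ≤ 9 * Real.pi * (volume K).toReal ^ 2 / (2 * S ^ 3)) : False := by
  have hG : ∀ u : E3, (volume (Q + segment ℝ (0 : EuclideanSpace ℝ (Fin 3)) u)).toReal
              - (volume Q).toReal = G Q u := by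
    intro u
    rw [← Sg_zero_one]
    rfl
  have h := H Q (Real.pi / 5.5) Q_compact Q_convex interior_Q (by
    intro u hu L hL
    have hu' : ‖u‖ = 1 := by simpa using hu
    rw [hG u] at hL ⊢
    rw [proj_eq] at hL
    rw [lim_L hu' hL]
    exact lower hu') 3 lim_S
  have hv : (volume Q).toReal = 1 := vol_Q
  rw [hv] at h
  have hpi := Real.pi_pos
  norm_num at h
  nlinarith

end Pool.Agent.U329.CubeFin
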