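import Pool.Agent.U329.StrFinB

set_option autoImplicit false
open Real Set MeasureTheory Filter Topology
open scoped ENNReal NNReal

namespace Pool.Agent.U329.Str
open Pool.Agent.R763.Str

variable {K : Set E2}

/-- the affine map `x ↦ (p x₀ + a, q x₀ + r x₁ + b)` -/
noncomputable def aff (p q r a b : ℝ) (hp : p ≠ 0) (hr : r ≠ 0) : E2 ≃ᵃ[ℝ] E2 :=
  AffineEquiv.mk'
    (fun x => !₂[p * x 0 + a, q * x 0 + r * x 1 + b])
    (LinearEquiv.ofLinearMap
      (Matrix.toEuclideanLin !![p, 0; q, r])
      (Matrix.toEuclideanLin !![p⁻¹, 0; -(q * p⁻¹ * r⁻¹), r⁻¹])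
      (by
        ext x i
        fin_cases i <;>
        · simp [Matrix.toEuclideanLin, Matrix.toLin'_apply, Matrix.mulVec, dotProduct, Fin.sum_univ_two]
          try field_simp
          try ring_nf)
      (by
        ext x i
        fin_cases i <;>
        · simp [Matrix.toEuclideanLin, Matrix.toLin'_apply, Matrix.mulVec, dotProduct, Fin.sum_univ_two]
          try field_simp
          try ring_nf))
    0
    (by
      intro x
      ext i
      fin_cases i <;>
      simp [Matrix.toEuclideanLin, Matrix.toLin'_apply, Matrix.mulVec, dotProduct, Fin.sum_univ_two]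
      try ring_nf)

theorem aff_apply {p q r a b : ℝ} (hp : p ≠ 0) (hr : r ≠ 0) (x : E2) :
    aff p q r a b hp hr x = !₂[p * x 0 + a, q * x 0 + r * x 1 + b] := rfl

theorem hs_aff {p q r a b : ℝ} (hp : p ≠ 0) (hr : r ≠ 0) (θ : ℝ) :
    hs (aff p q r a b hp hr '' Metric.closedBall 0 1) θ =
      sqrt ((p * cos θ + q * sin θ) ^ 2 + (r * sin θ) ^ 2) + (a * cos θ + b * sin θ) := by
  have hcomp : IsCompact (aff p q r a b hp hr '' Metric.closedBall 0 1) :=
    (isCompact_closedBall 0 1).image (aff p q r a b hp hr).continuous_of_finiteDimensional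
  have hne : (aff p q r a b hp hr '' Metric.closedBall 0 1).Nonempty :=
    ⟨_, mem_image_of_mem _ (Metric.mem_closedBall_self (by norm_num))⟩
  have hpr : ∀ x : E2, pr (aff p q r a b hp hr x) θ =
      x 0 * (p * cos θ + q * sin θ) + x 1 * (r * sin θ) + (a * cos θ + b * sin θ) := by
    intro x
    rw [aff_apply]
    simp only [pr, Matrix.cons_val_zero, Matrix.cons_val_one]
    ring
  set u := p * cos θ + q * sin θ with hu
  set v := r * sin θ with hv
  apply le_antisymm
  · apply hs_le hcomp hne
    rintro _ ⟨x, hx, rfl⟩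
    rw [hpr x]
    have h1 : ‖x‖ ≤ 1 := by simpa using hx
    have h2 := norm_sq_eq x
    have h3 : x 0 * u + x 1 * v ≤ sqrt (u ^ 2 + v ^ 2) := by
      apply Real.le_sqrt_of_sq_le
      have h4 : x 0 ^ 2 + x 1 ^ 2 ≤ 1 := by
        rw [← h2]; nlinarith [norm_nonneg x]
      nlinarith [sq_nonneg (x 0 * v - x 1 * u), sq_nonneg u, sq_nonneg v]
    linarith
  · by_cases hz : u ^ 2 + v ^ 2 = 0
    · rw [hz, Real.sqrt_zero, zero_add]
      have h1 := le_hs hcomp (mem_image_of_mem (aff p q r a b hp hr)
        (Metric.mem_closedBall_self (x := (0:E2)) (ε := 1) (by norm_num))) θ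
      rw [hpr] at h1
      simpa using h1
    · have hpos : 0 < u ^ 2 + v ^ 2 := lt_of_le_of_ne (by positivity) (Ne.symm hz)
      set w := sqrt (u ^ 2 + v ^ 2) with hw
      have hwpos : 0 < w := Real.sqrt_pos.2 hpos
      have hw2 : w ^ 2 = u ^ 2 + v ^ 2 := Real.sq_sqrt hpos.le
      have hmem : (!₂[u / w, v / w] : E2) ∈ Metric.closedBall (0 : E2) 1 := by
        rw [mem_closedBall_zero_iff]
        have h1 : ‖(!₂[u / w, v / w] : E2)‖ ^ 2 = 1 := by
          rw [norm_sq_eq]
          simp only [Matrix.cons_val_zero, Matrix.cons_val_one]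
          field_simp
          linarith
        nlinarith [norm_nonneg (!₂[u / w, v / w] : E2)]
      have h1 := le_hs hcomp (mem_image_of_mem (aff p q r a b hp hr) hmem) θ
      rw [hpr] at h1
      simp only [Matrix.cons_val_zero, Matrix.cons_val_one] at h1
      have h2 : u / w * u + v / w * v = w := by
        field_simp
        linarith
      linarith

theorem ellipse_of_support (hK : IsCompact K) (hc : Convex ℝ K) (hne : K.Nonempty)
    {A B C a b : ℝ} (hpos : ∀ x, 0 < A + B * cos (2 * x) + C * sin (2 * x))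
    (hform : ∀ x, hs K x = sqrt (A + B * cos (2 * x) + C * sin (2 * x)) + (a * cos x + b * sin x)) :
    ∃ f : E2 ≃ᵃ[ℝ] E2, K = f '' Metric.closedBall 0 1 := by
  have hAB : 0 < A + B := by
    have := hpos 0
    simpa using this
  obtain ⟨ψ, h1, h2⟩ := exists_polar B C
  set ρ := √(B ^ 2 + C ^ 2) with hρ
  have hρ2 : ρ ^ 2 = B ^ 2 + C ^ 2 := Real.sq_sqrt (by positivity)
  have hρ0 : 0 ≤ ρ := Real.sqrt_nonneg _
  have hAρ : ρ < A := by
    have := hpos ((ψ + π) / 2)
    rw [show 2 * ((ψ + π) / 2) = ψ + π by ring, Real.cos_add_pi, Real.sin_add_pi, h1, h2] at this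
    have hsc := Real.sin_sq_add_cos_sq ψ
    nlinarith
  have hdet : 0 < A - B - (C / √(A + B)) ^ 2 := by
    rw [div_pow, Real.sq_sqrt hAB.le, sub_pos, div_lt_iff₀ hAB]
    nlinarith
  have hp : √(A + B) ≠ 0 := (Real.sqrt_pos.2 hAB).ne'
  have hr : √(A - B - (C / √(A + B)) ^ 2) ≠ 0 := (Real.sqrt_pos.2 hdet).ne'
  refine ⟨aff (√(A + B)) (C / √(A + B)) (√(A - B - (C / √(A + B)) ^ 2)) a b hp hr, ?_⟩
  set f := aff (√(A + B)) (C / √(A + B)) (√(A - B - (C / √(A + B)) ^ 2)) a b hp hr with hf
  have hcomp : IsCompact (f '' Metric.closedBall 0 1) :=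
    (isCompact_closedBall 0 1).image f.continuous_of_finiteDimensional
  have hne' : (f '' Metric.closedBall 0 1).Nonempty :=
    ⟨_, mem_image_of_mem _ (Metric.mem_closedBall_self (by norm_num))⟩
  have hconv : Convex ℝ (f '' Metric.closedBall 0 1) :=
    (convex_closedBall 0 1).affine_image f.toAffineMap
  have heq : ∀ θ, hs K θ = hs (f '' Metric.closedBall 0 1) θ := by
    intro θ
    rw [hform θ, hf, hs_aff hp hr θ]
    congr 2
    have e1 : √(A + B) ^ 2 = A + B := Real.sq_sqrt hAB.le
    have e2 : √(A - B - (C / √(A + B)) ^ 2) ^ 2 = A - B - (C / √(A + B)) ^ 2 := Real.sq_sqrt hdet.le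
    have e3 : √(A + B) * (C / √(A + B)) = C := by field_simp
    have hsc := Real.sin_sq_add_cos_sq θ
    rw [Real.cos_two_mul, Real.sin_two_mul]
    linear_combination (-(cos θ) ^ 2) * e1 - (sin θ) ^ 2 * e2 - 2 * (cos θ * sin θ) * e3
      - (A - B) * hsc
  ext x
  rw [mem_iff hK hc hne, mem_iff hcomp hconv hne']
  simp only [heq]

theorem hyp_translate (hK : IsCompact K) (hne : K.Nonempty) (v : E2)
    (h0 : (0 : E2) ∈ interior ((fun x => x + v) '' K))
    (hyp : Hyp K) : Hyp ((fun x => x + v) '' K) := by
  set K' := (fun x => x + v) '' K with hK'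
  have hK'c : IsCompact K' := hK.image (by fun_prop)
  have hK'ne : K'.Nonempty := hne.image _
  have hhs : hs K' = fun θ => hs K θ + pr v θ := funext (hs_translate hK hne v)
  have hFF : ∀ x, FF (hs K') (x + v) = FF (hs K) x := by
    intro x
    rw [hhs]
    exact FF_translate (hs_continuous hK hne) x v
  obtain ⟨r, hr, hlow⟩ := pos_of_interior hK'c h0
  intro l hl x y hxy hW
  have hWK : W K' = W K := W_translate hK hne v
  rw [hWK] at hl
  have hLL : LL (hs K') l = (fun x => x + v) '' LL (hs K) l := by
    ext z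
    constructor
    · intro hz
      refine ⟨z - v, ?_, by simp⟩
      show FF (hs K) (z - v) ≤ l
      rw [← hFF, sub_add_cancel]; exact hz
    · rintro ⟨w, hw, rfl⟩
      show FF (hs K') (w + v) ≤ l
      rw [hFF]; exact hw
  have hLL2 : LL (hs K) l = (fun x => x + (-v)) '' LL (hs K') l := by
    rw [hLL, ← image_comp]
    simp
  have hLc' : IsCompact (LL (hs K') l) :=
    LL_compact (hs_continuous hK'c hK'ne) (hs_periodic K') (fun s => hr.le.trans (hlow s)) l
  have hLc : IsCompact (LL (hs K) l) := by
    rw [hLL2]; exact hLc'.image (by fun_prop)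
  have hLne : (LL (hs K) l).Nonempty := by
    obtain ⟨x0, hx0⟩ := hne
    refine ⟨x0, ?_⟩
    show FF (hs K) x0 ≤ l
    have : FF (hs K) x0 = W K := by
      unfold FF W
      apply intervalIntegral.integral_congr
      intro θ _
      exact max_eq_right (le_hs hK hx0 θ)
    rw [this]; exact hl.le
  have hhsL : hs (LL (hs K') l) = fun θ => hs (LL (hs K) l) θ + pr v θ := by
    rw [hLL]; exact funext (hs_translate hLc hLne v)
  have hFFL : ∀ x, FF (hs (LL (hs K') l)) x = FF (hs (LL (hs K) l)) (x - v) := by
    intro x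
    rw [hhsL]
    have := FF_translate (hs_continuous hLc hLne) (x - v) v
    rwa [sub_add_cancel] at this
  have hWL : W (LL (hs K') l) = W (LL (hs K) l) := by
    rw [hLL]; exact W_translate hLc hLne v
  rw [hFFL, hFFL] at hxy
  rw [hFFL, hWL] at hW
  have := hyp l hl (x - v) (y - v) hxy hW
  rw [← hFF, ← hFF, sub_add_cancel, sub_add_cancel] at this
  exact this

/-- A compact convex set with nonempty interior satisfying the analytic transitivity hypothesis
is an ellipse. -/
theorem ellipse_of_hyp (hK : IsCompact K) (hc : Convex ℝ K) (hint : (interior K).Nonempty)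
    (hyp : Hyp K) : ∃ f : E2 ≃ᵃ[ℝ] E2, K = f '' Metric.closedBall 0 1 := by
  obtain ⟨x0, hx0⟩ := hint
  have hne : K.Nonempty := ⟨x0, interior_subset hx0⟩
  set K' := (fun x => x + (-x0)) '' K with hK'
  have hK'c : IsCompact K' := hK.image (by fun_prop)
  have hK'conv : Convex ℝ K' := by
    have := hc.translate (-x0)
    rw [hK']
    have e : (fun x => x + -x0) = (fun x => -x0 + x) := funext (fun x => add_comm _ _)
    rw [e]
    exact this
  have h0 : (0 : E2) ∈ interior K' := by
    have hhomeo : interior ((Homeomorph.addRight (-x0)) '' K) = (Homeomorph.addRight (-x0)) '' interior K :=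
      ((Homeomorph.addRight (-x0)).image_interior K).symm
    have : K' = (Homeomorph.addRight (-x0)) '' K := rfl
    rw [this, hhomeo]
    exact ⟨x0, hx0, by simp⟩
  obtain ⟨A, B, C, a, b, hpos, hform⟩ := support_form hK'c h0 (hyp_translate hK hne (-x0) h0 hyp)
  refine ellipse_of_support hK hc hne (a := a + x0 0) (b := b + x0 1) hpos ?_
  intro θ
  have h1 := hs_translate hK hne (-x0) θ
  rw [← hK', hform θ] at h1
  have h2 : pr (-x0) θ = -(x0 0 * cos θ + x0 1 * sin θ) := by
    simp only [pr, PiLp.neg_apply]; ring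
  rw [h2] at h1
  linarith

/-- the transitivity of the string construction in terms of Hausdorff measures implies the
analytic hypothesis -/
theorem hyp_of_string (hK : IsCompact K) (hc : Convex ℝ K) (hint : (interior K).Nonempty)
    (H : ∀ ℓ1 : ℝ, (MeasureTheory.Measure.hausdorffMeasure 1 (frontier K)).toReal < ℓ1 →
        ∀ ℓ2 : ℝ,
          (MeasureTheory.Measure.hausdorffMeasure 1
              (frontier {x : EuclideanSpace ℝ (Fin 2) |
                (MeasureTheory.Measure.hausdorffMeasure 1
                  (frontier (convexHull ℝ (insert x K)))).toReal ≤ ℓ1})).toReal < ℓ2 →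
          ∃ ℓ3 : ℝ,
            {y : EuclideanSpace ℝ (Fin 2) |
              (MeasureTheory.Measure.hausdorffMeasure 1
                (frontier (convexHull ℝ (insert y
                  {x : EuclideanSpace ℝ (Fin 2) |
                    (MeasureTheory.Measure.hausdorffMeasure 1
                      (frontier (convexHull ℝ (insert x K)))).toReal ≤ ℓ1})))).toReal = ℓ2}
            = {y : EuclideanSpace ℝ (Fin 2) |
              (MeasureTheory.Measure.hausdorffMeasure 1
                (frontier (convexHull ℝ (insert y K)))).toReal = ℓ3}) : Hyp K := by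
  have hne : K.Nonempty := hint.mono interior_subset
  intro l hl x y hxy hW
  have hlev : {x : EuclideanSpace ℝ (Fin 2) |
                (MeasureTheory.Measure.hausdorffMeasure 1
                  (frontier (convexHull ℝ (insert x K)))).toReal ≤ l} = LL (hs K) l := by
    ext z
    rw [Set.mem_ofPred_eq, perim_hull hK hc hint z]
    rfl
  -- the level set is a convex body
  have hsub : K ⊆ LL (hs K) l := by
    intro z hz
    show FF (hs K) z ≤ l
    have : FF (hs K) z = W K := by
      unfold FF W
      apply intervalIntegral.integral_congr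
      intro θ _
      exact max_eq_right (le_hs hK hz θ)
    rw [this]; exact hl.le
  have hLint : (interior (LL (hs K) l)).Nonempty := hint.mono (interior_mono hsub)
  have hLconv : Convex ℝ (LL (hs K) l) := LL_convex (hs_continuous hK hne) l
  have hLcomp : IsCompact (LL (hs K) l) := by
    obtain ⟨x0, hx0⟩ := hne
    have hne : K.Nonempty := ⟨x0, hx0⟩
    set v : E2 := -x0 with hv
    set K' := (fun x => x + v) '' K with hK'
    have hK'c : IsCompact K' := hK.image (by fun_prop)
    have hK'ne : K'.Nonempty := hne.image _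
    have hhs : hs K' = fun θ => hs K θ + pr v θ := funext (hs_translate hK hne v)
    have hFF : ∀ x, FF (hs K') (x + v) = FF (hs K) x := by
      intro x
      rw [hhs]
      exact FF_translate (hs_continuous hK hne) x v
    have hLL2 : LL (hs K) l = (fun x => x + (-v)) '' LL (hs K') l := by
      ext z
      constructor
      · intro hz
        refine ⟨z + v, ?_, by simp⟩
        show FF (hs K') (z + v) ≤ l
        rw [hFF]; exact hz
      · rintro ⟨w, hw, rfl⟩
        show FF (hs K) (w + -v) ≤ l
        rw [← hFF, neg_add_cancel_right]; exact hw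
    have hpos : ∀ s, 0 ≤ hs K' s := by
      intro s
      have h1 : (0 : E2) ∈ K' := ⟨x0, hx0, by simp [hv]⟩
      have h2 := le_hs hK'c h1 s
      rwa [pr_zero] at h2
    rw [hLL2]
    exact (LL_compact (hs_continuous hK'c hK'ne) (hs_periodic K') hpos l).image (by fun_prop)
  have hLperim : ∀ z, (μH[1] (frontier (convexHull ℝ (insert z (LL (hs K) l))))).toReal =
      FF (hs (LL (hs K) l)) z := fun z => perim_hull hLcomp hLconv hLint z
  obtain ⟨ℓ3, h3⟩ := H l (by rw [perim_toReal hK hc hint]; exact hl) (FF (hs (LL (hs K) l)) x) (by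
    rw [hlev, perim_toReal hLcomp hLconv hLint]; exact hW)
  rw [hlev] at h3
  have hx : x ∈ {y : EuclideanSpace ℝ (Fin 2) |
              (MeasureTheory.Measure.hausdorffMeasure 1
                (frontier (convexHull ℝ (insert y K)))).toReal = ℓ3} := by
    rw [← h3, Set.mem_ofPred_eq, hLperim]
  have hy : y ∈ {y : EuclideanSpace ℝ (Fin 2) |
              (MeasureTheory.Measure.hausdorffMeasure 1
                (frontier (convexHull ℝ (insert y K)))).toReal = ℓ3} := by
    rw [← h3, Set.mem_ofPred_eq, hLperim, hxy]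
  rw [Set.mem_ofPred_eq, perim_hull hK hc hint] at hx hy
  rw [hx, hy]

end Pool.Agent.U329.Str
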