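import Pool.Agent.R763.StrFF

set_option autoImplicit false
open Real Set MeasureTheory Filter Topology
open scoped ENNReal NNReal Pointwise

namespace Pool.Agent.U329.Klam
open Pool.Agent.R763.Str

variable {K : Set E2}

/-- strict monotonicity of the perimeter -/
theorem frontier_strict {A B : Set E2} (hA : IsCompact A) (hAc : Convex ℝ A)
    (hAi : (interior A).Nonempty) (hB : IsCompact B) (hBc : Convex ℝ B) (hAB : A ⊆ B)
    (hne : A ≠ B) : μH[1] (frontier A) < μH[1] (frontier B) := by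
  obtain ⟨h1, h1'⟩ := cauchy hA hAc hAi
  obtain ⟨h2, h2'⟩ := cauchy hB hBc (hAi.mono (interior_mono hAB))
  have hAne : A.Nonempty := hAi.mono interior_subset
  have hBne : B.Nonempty := hAne.mono hAB
  have hcA := hs_continuous hA hAne
  have hcB := hs_continuous hB hBne
  have hle : ∀ θ, hs A θ ≤ hs B θ := fun θ => hs_mono hA hAne hB hAB θ
  have hex : ∃ θ, hs A θ < hs B θ := by
    by_contra hcon
    push Not at hcon
    apply hne
    apply Subset.antisymm hAB
    intro x hx
    rw [mem_iff hA hAc hAne]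
    intro θ
    exact (le_hs hB hx θ).trans (hcon θ)
  have hex2 : ∃ θ ∈ Ico 0 (2 * π), hs A θ < hs B θ := by
    obtain ⟨θ, hθ⟩ := hex
    have hper : Function.Periodic (fun θ => hs B θ - hs A θ) (2 * π) := by
      intro θ; simp only [hs_periodic]
    obtain ⟨y, hy, he⟩ := hper.exists_mem_Ico₀ (by positivity) θ
    refine ⟨y, hy, ?_⟩
    have he' : hs B θ - hs A θ = hs B y - hs A y := he
    linarith
  obtain ⟨θ, hθm, hθ⟩ := hex2
  have hW : W A < W B := by
    unfold W
    apply intervalIntegral.integral_lt_integral_of_continuousOn_of_le_of_exists_lt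
      (by positivity) hcA.continuousOn hcB.continuousOn (fun x _ => hle x)
    exact ⟨θ, Ico_subset_Icc_self hθm, hθ⟩
  rw [h1, h2]
  exact (ENNReal.ofReal_lt_ofReal_iff (lt_of_le_of_lt h1' hW)).2 hW

theorem frontier_meets {s t : Set E2} (hs : IsPreconnected s) (h1 : (s ∩ t).Nonempty)
    (h2 : (s ∩ tᶜ).Nonempty) : (s ∩ frontier t).Nonempty := by
  by_contra hcon
  rw [Set.not_nonempty_iff_eq_empty] at hcon
  have hx : ∀ x ∈ s, x ∉ frontier t := by
    intro x hx hf
    have : x ∈ s ∩ frontier t := ⟨hx, hf⟩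
    rw [hcon] at this
    exact this
  have h3 := hs (interior t) (closure t)ᶜ isOpen_interior isClosed_closure.isOpen_compl ?_ ?_ ?_
  · obtain ⟨x, _, hx1, hx2⟩ := h3
    exact hx2 (interior_subset_closure hx1)
  · intro x hxs
    by_cases hc : x ∈ closure t
    · left
      by_contra hi
      exact hx x hxs ⟨hc, hi⟩
    · exact Or.inr hc
  · obtain ⟨x, hxs, hxt⟩ := h1
    refine ⟨x, hxs, ?_⟩
    by_contra hi
    exact hx x hxs ⟨subset_closure hxt, hi⟩
  · obtain ⟨x, hxs, hxt⟩ := h2
    refine ⟨x, hxs, ?_⟩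
    intro hc
    exact hx x hxs ⟨hc, fun hi => hxt (interior_subset hi)⟩

/-- the part of the boundary beyond a line which meets the interior has positive length -/
theorem beyond_pos (hK : IsCompact K) {w : E2} (hw : w ≠ 0) {p : E2}
    (hp : p ∈ interior K) (hwp : inner ℝ w p < 0) :
    0 < μH[1] (frontier K ∩ {x | inner ℝ w x < 0}) := by
  -- unit vector orthogonal to `w`
  set τ : E2 := (‖w‖⁻¹ : ℝ) • (!₂[-(w 1), w 0] : E2) with hτ
  have hwpos : 0 < ‖w‖ := norm_pos_iff.2 hw
  have hτ1 : ‖τ‖ = 1 := by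
    have h1 : ‖(!₂[-(w 1), w 0] : E2)‖ = ‖w‖ := by
      rw [EuclideanSpace.norm_eq, EuclideanSpace.norm_eq]
      congr 1
      simp [Fin.sum_univ_two]
      ring
    rw [hτ, norm_smul, h1, norm_inv, norm_norm, inv_mul_cancel₀ hwpos.ne']
  have hτw : inner ℝ w τ = 0 := by
    rw [hτ, inner_smul_right, PiLp.inner_apply]
    simp [Fin.sum_univ_two]
    right; ring
  have hτw' : inner ℝ τ w = 0 := by rw [real_inner_comm]; exact hτw
  obtain ⟨r, hr, hball⟩ := Metric.isOpen_iff.1 isOpen_interior p hp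
  -- every value in a small interval is attained
  have hcov : Icc (inner ℝ τ p) (inner ℝ τ p + r / 2) ⊆
      (fun x : E2 => inner ℝ τ x) '' (frontier K ∩ {x | inner ℝ w x < 0}) := by
    intro s hs
    set t := s - inner ℝ τ p with ht
    have ht0 : 0 ≤ t := by have := hs.1; linarith
    have htr : t ≤ r / 2 := by have := hs.2; linarith
    set q : E2 := p + t • τ with hq
    have hqK : q ∈ K := by
      apply interior_subset
      apply hball
      rw [Metric.mem_ball, dist_eq_norm, hq, add_sub_cancel_left, norm_smul, hτ1, mul_one,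
        Real.norm_eq_abs, abs_of_nonneg ht0]
      linarith
    set ray : Set E2 := (fun u : ℝ => q - u • w) '' Ici 0 with hray
    have hpre : IsPreconnected ray := by
      apply (isPreconnected_Ici (a := (0:ℝ))).image
      fun_prop
    have hin : (ray ∩ K).Nonempty := ⟨q, ⟨0, by simp, by simp⟩, hqK⟩
    have hout : (ray ∩ Kᶜ).Nonempty := by
      obtain ⟨R, hR⟩ := hK.isBounded.subset_closedBall 0
      have hRq : ‖q‖ ≤ R := by simpa using hR hqK
      have hR0 : 0 ≤ R := (norm_nonneg q).trans hRq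
      set u : ℝ := (2 * R + 1) / ‖w‖ with hu
      have hu0 : 0 ≤ u := by positivity
      refine ⟨q - u • w, ⟨u, hu0, rfl⟩, ?_⟩
      intro hmem
      have h1 : ‖q - u • w‖ ≤ R := by simpa using hR hmem
      have h2 : ‖u • w‖ ≤ ‖q‖ + ‖q - u • w‖ := by
        calc ‖u • w‖ = ‖q - (q - u • w)‖ := by congr 1; abel
          _ ≤ _ := norm_sub_le _ _
      rw [norm_smul, Real.norm_eq_abs, abs_of_nonneg hu0, hu, div_mul_cancel₀ _ hwpos.ne'] at h2
      linarith
    obtain ⟨y, ⟨u, hu0, rfl⟩, hy⟩ := frontier_meets hpre hin hout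
    refine ⟨q - u • w, ⟨hy, ?_⟩, ?_⟩
    · show inner ℝ w (q - u • w) < 0
      rw [inner_sub_right, inner_smul_right, hq, inner_add_right, inner_smul_right, hτw,
        real_inner_self_eq_norm_sq]
      have : 0 ≤ u * ‖w‖ ^ 2 := mul_nonneg hu0 (by positivity)
      linarith
    · show inner ℝ τ (q - u • w) = s
      rw [inner_sub_right, inner_smul_right, hq, inner_add_right, inner_smul_right, hτw',
        real_inner_self_eq_norm_sq, hτ1, ht]
      ring
  have hlip : LipschitzWith 1 (fun x : E2 => inner ℝ τ x) := by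
    apply LipschitzWith.of_dist_le_mul
    intro x y
    rw [Real.dist_eq, ← inner_sub_right, NNReal.coe_one, one_mul, dist_eq_norm]
    have := abs_real_inner_le_norm τ (x - y)
    rwa [hτ1, one_mul] at this
  have h1 := hlip.hausdorffMeasure_image_le (d := 1) zero_le_one
    (frontier K ∩ {x | inner ℝ w x < 0})
  rw [ENNReal.coe_one, ENNReal.one_rpow, one_mul, hausdorffMeasure_real] at h1
  have h2 := (measure_mono hcov).trans h1
  rw [Real.volume_Icc] at h2
  refine lt_of_lt_of_le ?_ h2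
  rw [ENNReal.ofReal_pos]
  linarith

theorem decomp (x : E2) (φ : ℝ) :
    x = pr x φ • pt 1 φ + pr x (φ + π / 2) • pt 1 (φ + π / 2) := by
  have h := Real.sin_sq_add_cos_sq φ
  ext i
  fin_cases i
  · simp only [pr, pt, Real.cos_add_pi_div_two, Real.sin_add_pi_div_two, PiLp.add_apply,
      PiLp.smul_apply, smul_eq_mul, Matrix.cons_val_zero, Fin.zero_eta,
      Fin.isValue, one_mul]
    linear_combination (-(x 0)) * h
  · simp only [pr, pt, Real.cos_add_pi_div_two, Real.sin_add_pi_div_two, PiLp.add_apply,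
      PiLp.smul_apply, smul_eq_mul, Matrix.cons_val_one, Fin.mk_one,
      Fin.isValue, one_mul]
    simp only [Matrix.cons_val_fin_one]
    linear_combination (-(x 1)) * h

theorem pt_ne (φ : ℝ) : pt 1 φ ≠ 0 := by
  intro h
  have h1 : pr (pt 1 φ) φ = 0 := by rw [h]; exact pr_zero φ
  rw [pr_pt] at h1
  simp at h1

theorem dir_eq (x : E2) : ∃ θ, x = ‖x‖ • pt 1 θ := by
  obtain ⟨θ, h0, h1⟩ := exists_dir x
  refine ⟨θ, ?_⟩
  ext i
  fin_cases i
  · simpa [pt] using h0
  · simpa [pt] using h1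

theorem pr_neg (x : E2) (θ : ℝ) : pr (-x) θ = - pr x θ := by
  simp [pr]; ring

/-- the gauge of a body which contains the origin in its interior is positive -/
theorem gpos (hK : IsCompact K) (h0 : (0 : E2) ∈ interior K) {x : E2} (hx : x ≠ 0) :
    0 < gauge K x := by
  rw [gauge_pos (absorbent_nhds_zero (mem_interior_iff_mem_nhds.1 h0))
    (NormedSpace.isVonNBounded_of_isBounded _ hK.isBounded)]
  exact hx

/-- points on a line through the origin on which the gauge is symmetric -/
theorem line_sym {u : E2} (hu : gauge K (-u) = gauge K u) (t : ℝ) :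
    gauge K (-(t • u)) = gauge K (t • u) := by
  rcases le_or_gt 0 t with ht | ht
  · rw [← smul_neg, gauge_smul_of_nonneg ht, gauge_smul_of_nonneg ht, hu]
  · have h1 : t • u = (-t) • (-u) := by simp
    have h2 : -(t • u) = (-t) • u := by simp
    have ht' : 0 ≤ -t := by linarith
    rw [h2, h1, gauge_smul_of_nonneg ht', gauge_smul_of_nonneg ht', hu]

/-- a line through the interior point `0` meets the boundary in a null set -/
theorem line_null (hK : IsCompact K) (hc : Convex ℝ K) (h0 : (0 : E2) ∈ interior K) (φ : ℝ) :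
    μH[1] (frontier K ∩ {x | pr x φ = 0}) = 0 := by
  have hnhds := mem_interior_iff_mem_nhds.1 h0
  set u : E2 := pt 1 (φ + π / 2) with hu
  have hu0 : u ≠ 0 := pt_ne _
  have hg1 := gpos hK h0 hu0
  have hg2 := gpos hK h0 (neg_ne_zero.2 hu0)
  have hfin : (frontier K ∩ {x | pr x φ = 0}).Finite := by
    apply Set.Finite.subset (Set.toFinite {(gauge K u)⁻¹ • u, -((gauge K (-u))⁻¹) • u})
    rintro x ⟨hx1, hx2⟩
    have hx2' : pr x φ = 0 := hx2
    have hdec := decomp x φ
    rw [hx2', zero_smul, zero_add, ← hu] at hdec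
    set t := pr x (φ + π / 2) with ht
    have hgx : gauge K x = 1 := (gauge_eq_one_iff_mem_frontier hc hnhds).2 hx1
    rcases le_or_gt 0 t with h | h
    · left
      rw [hdec, gauge_smul_of_nonneg h, smul_eq_mul] at hgx
      rw [hdec]
      congr 1
      exact eq_inv_of_mul_eq_one_left hgx
    · right
      have h' : 0 ≤ -t := by linarith
      have h1 : t • u = (-t) • (-u) := by simp
      rw [hdec, h1, gauge_smul_of_nonneg h', smul_eq_mul] at hgx
      show x = _
      rw [hdec]
      congr 1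
      have := eq_inv_of_mul_eq_one_left hgx
      linarith
  have := Measure.nullSingletonClass_hausdorff E2 (d := 1) one_pos
  exact hfin.measure_zero _

theorem measurable_pos (φ : ℝ) : MeasurableSet {x : E2 | 0 < pr x φ} :=
  (isOpen_lt continuous_const (continuous_pr_left φ)).measurableSet

theorem measurable_neg (φ : ℝ) : MeasurableSet {x : E2 | pr x φ < 0} :=
  (isOpen_lt (continuous_pr_left φ) continuous_const).measurableSet

theorem measurable_zero (φ : ℝ) : MeasurableSet {x : E2 | pr x φ = 0} :=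
  (isClosed_eq (continuous_pr_left φ) continuous_const).measurableSet

/-- opposite sectors contain equal parts of the boundary -/
theorem sector_eq (hK : IsCompact K) (hc : Convex ℝ K) (h0 : (0 : E2) ∈ interior K)
    (h : ∀ φ : ℝ, μH[1] (frontier K ∩ {x | 0 < pr x φ}) = μH[1] (frontier K ∩ {x | pr x φ < 0}))
    (φ ψ : ℝ) : μH[1] (frontier K ∩ ({x | 0 < pr x φ} ∩ {x | 0 < pr x ψ})) =
      μH[1] (frontier K ∩ ({x | pr x φ < 0} ∩ {x | pr x ψ < 0})) := by
  set ν : Measure E2 := (μH[1]).restrict (frontier K) with hν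
  have hfin : IsFiniteMeasure ν := by
    refine ⟨?_⟩
    rw [hν, Measure.restrict_apply_univ, (cauchy hK hc ⟨0, h0⟩).1]
    exact ENNReal.ofReal_lt_top
  have hval : ∀ s : Set E2, MeasurableSet s → ν s = μH[1] (frontier K ∩ s) := by
    intro s hs
    rw [hν, Measure.restrict_apply hs, inter_comm]
  have hZ : ∀ φ, ν {x | pr x φ = 0} = 0 := by
    intro φ
    rw [hval _ (measurable_zero φ)]
    exact line_null hK hc h0 φ
  have hPN : ∀ φ, ν {x | 0 < pr x φ} = ν {x | pr x φ < 0} := by
    intro φ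
    rw [hval _ (measurable_pos φ), hval _ (measurable_neg φ)]
    exact h φ
  -- difference sets
  have hd1 : ∀ φ ψ, ν ({x | 0 < pr x φ} \ {x | 0 < pr x ψ}) =
      ν ({x | 0 < pr x φ} ∩ {x | pr x ψ < 0}) := by
    intro φ ψ
    apply le_antisymm
    · calc ν ({x | 0 < pr x φ} \ {x | 0 < pr x ψ}) ≤
          ν (({x | 0 < pr x φ} ∩ {x | pr x ψ < 0}) ∪ {x | pr x ψ = 0}) := by
            apply measure_mono
            rintro x ⟨hx1, hx2⟩
            have hx2' : ¬ 0 < pr x ψ := hx2
            rcases lt_or_eq_of_le (not_lt.1 hx2') with h | h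
            · exact Or.inl ⟨hx1, h⟩
            · exact Or.inr h
        _ ≤ _ := measure_union_le _ _
        _ = _ := by rw [hZ, add_zero]
    · apply measure_mono
      rintro x ⟨hx1, hx2⟩
      have hx2' : pr x ψ < 0 := hx2
      exact ⟨hx1, fun (h : 0 < pr x ψ) => by linarith⟩
  have hd2 : ∀ φ ψ, ν ({x | pr x ψ < 0} \ {x | pr x φ < 0}) =
      ν ({x | 0 < pr x φ} ∩ {x | pr x ψ < 0}) := by
    intro φ ψ
    apply le_antisymm
    · calc ν ({x | pr x ψ < 0} \ {x | pr x φ < 0}) ≤
          ν (({x | 0 < pr x φ} ∩ {x | pr x ψ < 0}) ∪ {x | pr x φ = 0}) := by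
            apply measure_mono
            rintro x ⟨hx1, hx2⟩
            have hx2' : ¬ pr x φ < 0 := hx2
            rcases lt_or_eq_of_le (not_lt.1 hx2') with h | h
            · exact Or.inl ⟨h, hx1⟩
            · exact Or.inr h.symm
        _ ≤ _ := measure_union_le _ _
        _ = _ := by rw [hZ, add_zero]
    · apply measure_mono
      rintro x ⟨hx1, hx2⟩
      have hx1' : 0 < pr x φ := hx1
      exact ⟨hx2, fun (h : pr x φ < 0) => by linarith⟩
  have hhalf : ∀ φ, ν {x | 0 < pr x φ} + ν {x | 0 < pr x φ} = ν univ := by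
    intro φ
    have h1 : ν univ = ν {x | 0 < pr x φ} + ν ({x | 0 < pr x φ}ᶜ) :=
      (measure_add_measure_compl (measurable_pos φ)).symm
    have h2 : ν ({x | 0 < pr x φ}ᶜ) = ν {x | pr x φ < 0} := by
      apply le_antisymm
      · calc ν ({x | 0 < pr x φ}ᶜ) ≤ ν ({x | pr x φ < 0} ∪ {x | pr x φ = 0}) := by
              apply measure_mono
              intro x hx
              have hx' : ¬ 0 < pr x φ := hx
              exact lt_or_eq_of_le (not_lt.1 hx')
          _ ≤ _ := measure_union_le _ _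
          _ = _ := by rw [hZ, add_zero]
      · apply measure_mono
        intro x hx
        have hx' : pr x φ < 0 := hx
        exact fun (h : 0 < pr x φ) => by linarith
    rw [h1, h2, hPN]
  have hPP : ν {x | 0 < pr x φ} = ν {x | pr x ψ < 0} := by
    rw [← hPN ψ]
    have h1 := hhalf φ
    rw [← hhalf ψ] at h1
    have e1 : ν {x | 0 < pr x φ} ≠ ⊤ := measure_ne_top _ _
    have e2 : ν {x | 0 < pr x ψ} ≠ ⊤ := measure_ne_top _ _
    rw [← ENNReal.toReal_eq_toReal_iff' e1 e2]
    have h2 := congrArg ENNReal.toReal h1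
    rw [ENNReal.toReal_add e1 e1, ENNReal.toReal_add e2 e2] at h2
    linarith
  have h3 := measure_inter_add_sdiff (μ := ν) {x | 0 < pr x φ} (measurable_pos ψ)
  have h4 := measure_inter_add_sdiff (μ := ν) {x | pr x ψ < 0} (measurable_neg φ)
  rw [hd1] at h3
  rw [hd2, ← hPP, ← h3] at h4
  have h5 : ν ({x | pr x ψ < 0} ∩ {x | pr x φ < 0}) =
      ν ({x | 0 < pr x φ} ∩ {x | 0 < pr x ψ}) :=
    (ENNReal.add_left_inj (measure_ne_top _ _)).1 h4
  rw [← hval _ ((measurable_pos φ).inter (measurable_pos ψ)),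
    ← hval _ ((measurable_neg φ).inter (measurable_neg ψ)), ← h5, inter_comm]

/-- closed and open sectors -/
theorem interior_half (φ : ℝ) : interior {x : E2 | 0 ≤ pr x φ} = {x | 0 < pr x φ} := by
  apply Subset.antisymm
  · intro x hx
    by_contra hcon
    have hcon' : ¬ 0 < pr x φ := hcon
    obtain ⟨ε, hε, hball⟩ := Metric.isOpen_iff.1 isOpen_interior x hx
    have hnorm : ‖pt 1 φ‖ = 1 := by
      have h1 := real_inner_self_eq_norm_sq (pt 1 φ)
      rw [inner_pt, pr_pt] at h1
      simp at h1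
      nlinarith [norm_nonneg (pt 1 φ)]
    have h1 : x - (ε / 2) • pt 1 φ ∈ Metric.ball x ε := by
      rw [Metric.mem_ball, dist_eq_norm, sub_sub_cancel_left, norm_neg, norm_smul, hnorm,
        Real.norm_eq_abs, abs_of_pos (by positivity)]
      linarith
    have h2' : x - (ε / 2) • pt 1 φ ∈ {x : E2 | 0 ≤ pr x φ} := interior_subset (hball h1)
    have h2 : 0 ≤ pr (x - (ε / 2) • pt 1 φ) φ := h2'
    rw [pr_sub, pr_smul, pr_pt] at h2
    simp at h2
    linarith
  · apply interior_maximal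
    · intro x hx
      have hx' : 0 < pr x φ := hx
      exact hx'.le
    · exact isOpen_lt continuous_const (continuous_pr_left φ)

theorem frontier_sector {K : Set E2} (hK : IsClosed K) (φ ψ : ℝ) :
    frontier (K ∩ ({x | 0 ≤ pr x φ} ∩ {x | 0 ≤ pr x ψ})) =
      (frontier K ∩ ({x | 0 < pr x φ} ∩ {x | 0 < pr x ψ})) ∪
        (K ∩ (({x | 0 ≤ pr x φ} ∩ {x | 0 ≤ pr x ψ}) \ ({x | 0 < pr x φ} ∩ {x | 0 < pr x ψ}))) := by
  have hcl : IsClosed (K ∩ ({x : E2 | 0 ≤ pr x φ} ∩ {x | 0 ≤ pr x ψ})) :=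
    hK.inter ((isClosed_le continuous_const (continuous_pr_left φ)).inter
      (isClosed_le continuous_const (continuous_pr_left ψ)))
  rw [hcl.frontier_eq, interior_inter, interior_inter, interior_half, interior_half,
    hK.frontier_eq]
  ext x
  simp only [Set.mem_sdiff, mem_inter_iff, mem_union, Set.mem_ofPred_eq]
  constructor
  · rintro ⟨⟨h1, h2, h3⟩, h4⟩
    by_cases h5 : 0 < pr x φ ∧ 0 < pr x ψ
    · left
      exact ⟨⟨h1, fun h6 => h4 ⟨h6, h5⟩⟩, h5⟩
    · right
      exact ⟨h1, ⟨h2, h3⟩, h5⟩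
  · rintro (⟨⟨h1, h2⟩, h3⟩ | ⟨h1, h2, h3⟩)
    · exact ⟨⟨h1, h3.1.le, h3.2.le⟩, fun h => h2 h.1⟩
    · exact ⟨⟨h1, h2⟩, fun h => h3 h.2⟩

theorem measure_sector {K : Set E2} (hK : IsClosed K) (φ ψ : ℝ) :
    μH[1] (frontier (K ∩ ({x | 0 ≤ pr x φ} ∩ {x | 0 ≤ pr x ψ}))) =
      μH[1] (frontier K ∩ ({x | 0 < pr x φ} ∩ {x | 0 < pr x ψ})) +
       μH[1] (K ∩ (({x | 0 ≤ pr x φ} ∩ {x | 0 ≤ pr x ψ}) \ ({x | 0 < pr x φ} ∩ {x | 0 < pr x ψ}))) := by
  rw [frontier_sector hK]
  apply measure_union
  · rw [Set.disjoint_left]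
    rintro x ⟨_, h1⟩ ⟨_, _, h2⟩
    exact h2 h1
  · apply hK.measurableSet.inter
    apply MeasurableSet.diff
    · exact ((isClosed_le continuous_const (continuous_pr_left φ)).inter
        (isClosed_le continuous_const (continuous_pr_left ψ))).measurableSet
    · exact (measurable_pos φ).inter (measurable_pos ψ)

/-- the maximal interval around a point at which an odd-`π`-periodic function is positive -/
theorem max_interval {D : ℝ → ℝ} (hD : Continuous D) (hper : ∀ θ, D (θ + π) = - D θ) {θ₀ : ℝ}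
    (h0 : 0 < D θ₀) : ∃ α β : ℝ, α < θ₀ ∧ θ₀ < β ∧ β ≤ α + π ∧ D α = 0 ∧ D β = 0 ∧
      ∀ θ, α < θ → θ < β → 0 < D θ := by
  have hpi := Real.pi_pos
  have hcl : IsClosed {θ : ℝ | D θ ≤ 0} := isClosed_le hD continuous_const
  have h1 : D (θ₀ + π) ≤ 0 := by rw [hper]; linarith
  have h2 : D (θ₀ - π) ≤ 0 := by
    have := hper (θ₀ - π)
    rw [sub_add_cancel] at this
    linarith
  obtain ⟨β, ⟨⟨hβ1, hβ2⟩, hβ3⟩, hβ4⟩ := ((isCompact_Icc (a := θ₀) (b := θ₀ + π)).inter_right
    hcl).exists_isLeast ⟨θ₀ + π, ⟨by linarith, le_rfl⟩, h1⟩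
  obtain ⟨α, ⟨⟨hα1, hα2⟩, hα3⟩, hα4⟩ := ((isCompact_Icc (a := θ₀ - π) (b := θ₀)).inter_right
    hcl).exists_isGreatest ⟨θ₀ - π, ⟨le_rfl, by linarith⟩, h2⟩
  have hβ3' : D β ≤ 0 := hβ3
  have hα3' : D α ≤ 0 := hα3
  have hβ5 : θ₀ < β := lt_of_le_of_ne hβ1 (by rintro rfl; linarith)
  have hα5 : α < θ₀ := lt_of_le_of_ne hα2 (by rintro rfl; linarith)
  have hposR : ∀ θ, θ₀ ≤ θ → θ < β → 0 < D θ := by
    intro θ ht1 ht2
    by_contra hcon
    have := hβ4 ⟨⟨ht1, by linarith⟩, not_lt.1 hcon⟩
    linarith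
  have hposL : ∀ θ, α < θ → θ ≤ θ₀ → 0 < D θ := by
    intro θ ht1 ht2
    by_contra hcon
    have := hα4 ⟨⟨by linarith, ht2⟩, not_lt.1 hcon⟩
    linarith
  have hcl2 : IsClosed {θ : ℝ | 0 ≤ D θ} := isClosed_le continuous_const hD
  have hDβ : 0 ≤ D β := by
    have hsub : Ico θ₀ β ⊆ {θ : ℝ | 0 ≤ D θ} := fun θ hθ => (hposR θ hθ.1 hθ.2).le
    have := closure_minimal hsub hcl2
    rw [closure_Ico hβ5.ne] at this
    exact this ⟨hβ5.le, le_rfl⟩
  have hDα : 0 ≤ D α := by
    have hsub : Ioc α θ₀ ⊆ {θ : ℝ | 0 ≤ D θ} := fun θ hθ => (hposL θ hθ.1 hθ.2).le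
    have := closure_minimal hsub hcl2
    rw [closure_Ioc hα5.ne] at this
    exact this ⟨le_rfl, hα5.le⟩
  have eα : D α = 0 := le_antisymm hα3' hDα
  refine ⟨α, β, hα5, hβ5, ?_, eα, le_antisymm hβ3' hDβ, ?_⟩
  · apply hβ4
    refine ⟨⟨by linarith, by linarith⟩, ?_⟩
    show D (α + π) ≤ 0
    rw [hper, eα, neg_zero]
  · intro θ ht1 ht2
    rcases le_or_gt θ θ₀ with h | h
    · exact hposL θ ht1 h
    · exact hposR θ h.le ht2

/-- the central step: the origin is interior, every line through it bisects the perimeter -/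
theorem symmetric_of_interior (hK : IsCompact K) (hc : Convex ℝ K) (h0 : (0 : E2) ∈ interior K)
    (h : ∀ φ : ℝ, μH[1] (frontier K ∩ {x | 0 < pr x φ}) = μH[1] (frontier K ∩ {x | pr x φ < 0})) :
    ∀ x ∈ K, -x ∈ K := by
  by_contra hcon
  push Not at hcon
  obtain ⟨x, hx, hnx⟩ := hcon
  have hnhds := mem_interior_iff_mem_nhds.1 h0
  have hgc : Continuous (gauge K) := continuous_gauge hc hnhds
  have hmem : ∀ y, y ∈ K ↔ gauge K y ≤ 1 := by
    intro y
    rw [gauge_le_one_iff_mem_closure hc hnhds, hK.isClosed.closure_eq]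
  -- the odd function
  set D : ℝ → ℝ := fun θ => gauge K (-(pt 1 θ)) - gauge K (pt 1 θ) with hDdef
  have hptc : Continuous (fun θ : ℝ => pt 1 θ) := by
    unfold pt
    fun_prop
  have hDc : Continuous D := (hgc.comp hptc.neg).sub (hgc.comp hptc)
  have hptpi : ∀ θ : ℝ, pt 1 (θ + π) = - pt 1 θ := by
    intro θ
    ext i
    fin_cases i <;> simp [pt]
  have hDper : ∀ θ, D (θ + π) = - D θ := by
    intro θ
    simp only [hDdef, hptpi, neg_neg]
    ring
  have hpt2 : Function.Periodic (fun θ : ℝ => pt 1 θ) (2 * π) := by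
    intro θ
    ext i
    fin_cases i <;> simp [pt]
  obtain ⟨θ₀, hθ₀⟩ := dir_eq x
  have hDθ₀ : 0 < D θ₀ := by
    have h1 : gauge K x ≤ 1 := (hmem x).1 hx
    have h2 : 1 < gauge K (-x) := by
      by_contra hle
      exact hnx ((hmem _).2 (not_lt.1 hle))
    rw [hθ₀, gauge_smul_of_nonneg (norm_nonneg x), smul_eq_mul] at h1
    rw [hθ₀, ← smul_neg, gauge_smul_of_nonneg (norm_nonneg x), smul_eq_mul] at h2
    simp only [hDdef]
    have h3 : ‖x‖ * gauge K (pt 1 θ₀) < ‖x‖ * gauge K (-(pt 1 θ₀)) := lt_of_le_of_lt h1 h2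
    have h4 := lt_of_mul_lt_mul_left h3 (norm_nonneg x)
    linarith
  obtain ⟨α, β, hα, hβ, hαβ, hDα, hDβ, hDpos⟩ := max_interval hDc hDper hDθ₀
  have hsymα : gauge K (-(pt 1 α)) = gauge K (pt 1 α) := by
    have : gauge K (-(pt 1 α)) - gauge K (pt 1 α) = 0 := hDα
    linarith
  have hsymβ : gauge K (-(pt 1 β)) = gauge K (pt 1 β) := by
    have : gauge K (-(pt 1 β)) - gauge K (pt 1 β) = 0 := hDβ
    linarith
  -- points on the two boundary lines of the sector
  have hlinα : ∀ y, pr y (α + π / 2) = 0 → gauge K (-y) = gauge K y := by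
    intro y hy
    have h1 := decomp y α
    rw [hy, zero_smul, add_zero] at h1
    rw [h1]
    exact line_sym hsymα _
  have hlinβ : ∀ y, pr y (β - π / 2) = 0 → gauge K (-y) = gauge K y := by
    intro y hy
    have h1 := decomp y (β - π / 2)
    rw [hy, zero_smul, zero_add, sub_add_cancel] at h1
    rw [h1]
    exact line_sym hsymβ _
  -- points in the open sector
  have hopen : ∀ y, 0 < pr y (α + π / 2) → 0 < pr y (β - π / 2) → gauge K y < gauge K (-y) := by
    intro y hy1 hy2
    obtain ⟨θ, hθ⟩ := dir_eq y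
    obtain ⟨θ', hθ', he⟩ := hpt2.exists_mem_Ico (by positivity) θ α
    have he' : pt 1 θ = pt 1 θ' := he
    rw [he'] at hθ
    have hn : 0 < ‖y‖ := by
      rw [norm_pos_iff]
      rintro rfl
      rw [pr_zero] at hy1
      exact lt_irrefl _ hy1
    rw [hθ, pr_smul, pr_pt, one_mul] at hy1 hy2
    have h1 := (mul_pos_iff_of_pos_left hn).1 hy1
    have h2 := (mul_pos_iff_of_pos_left hn).1 hy2
    rw [show α + π / 2 - θ' = π / 2 - (θ' - α) by ring, Real.cos_pi_div_two_sub] at h1
    rw [show β - π / 2 - θ' = (β - θ') - π / 2 by ring, Real.cos_sub_pi_div_two] at h2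
    have hlt1 : θ' - α < π := by
      by_contra hcon
      push Not at hcon
      have h3 : 0 ≤ sin (θ' - α - π) :=
        Real.sin_nonneg_of_nonneg_of_le_pi (by linarith) (by linarith [hθ'.2])
      rw [Real.sin_sub_pi] at h3
      linarith
    have hgt1 : α < θ' := by
      rcases lt_or_eq_of_le hθ'.1 with h3 | h3
      · exact h3
      · rw [← h3, sub_self, Real.sin_zero] at h1
        exact absurd h1 (lt_irrefl _)
    have hgt2 : θ' < β := by
      by_contra hcon
      push Not at hcon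
      have h3 : 0 ≤ sin (θ' - β) :=
        Real.sin_nonneg_of_nonneg_of_le_pi (by linarith) (by linarith)
      rw [← neg_sub, Real.sin_neg] at h3
      linarith
    have h3 : 0 < gauge K (-(pt 1 θ')) - gauge K (pt 1 θ') := hDpos θ' hgt1 hgt2
    rw [hθ, ← smul_neg, gauge_smul_of_nonneg hn.le, gauge_smul_of_nonneg hn.le, smul_eq_mul,
      smul_eq_mul]
    exact mul_lt_mul_of_pos_left (by linarith) hn
  -- the two bodies
  set φ := α + π / 2 with hφ
  set ψ := β - π / 2 with hψ
  set S : Set E2 := {x | 0 ≤ pr x φ} ∩ {x | 0 ≤ pr x ψ} with hS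
  set So : Set E2 := {x | 0 < pr x φ} ∩ {x | 0 < pr x ψ} with hSo
  have hSc : IsClosed S := (isClosed_le continuous_const (continuous_pr_left φ)).inter
      (isClosed_le continuous_const (continuous_pr_left ψ))
  have hhalfconv : ∀ φ : ℝ, Convex ℝ {x : E2 | 0 ≤ pr x φ} := by
    intro φ a ha b hb s t hs0 ht hst
    have ha' : 0 ≤ pr a φ := ha
    have hb' : 0 ≤ pr b φ := hb
    show 0 ≤ pr (s • a + t • b) φ
    rw [pr_add, pr_smul, pr_smul]
    positivity
  have hSconv : Convex ℝ S := (hhalfconv φ).inter (hhalfconv ψ)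
  have hNK : IsCompact (-K) := hK.neg
  have hNc : Convex ℝ (-K) := hc.neg
  have hAB : (-K) ∩ S ⊆ K ∩ S := by
    rintro y ⟨hy1, hy2⟩
    refine ⟨?_, hy2⟩
    have hy1' : gauge K (-y) ≤ 1 := (hmem _).1 hy1
    rw [hmem]
    by_cases h1 : y ∈ So
    · exact (hopen y h1.1 h1.2).le.trans hy1'
    · have h2 : gauge K (-y) = gauge K y := by
        by_cases h3 : 0 < pr y φ
        · apply hlinβ
          have h4 : ¬ 0 < pr y ψ := fun h4 => h1 ⟨h3, h4⟩
          exact le_antisymm (not_lt.1 h4) hy2.2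
        · apply hlinα
          exact le_antisymm (not_lt.1 h3) hy2.1
      rw [← h2]; exact hy1'
  have hE : (-K) ∩ (S \ So) = K ∩ (S \ So) := by
    ext y
    have key : y ∈ S \ So → gauge K (-y) = gauge K y := by
      rintro ⟨hy2, h1⟩
      by_cases h3 : 0 < pr y φ
      · apply hlinβ
        have h4 : ¬ 0 < pr y ψ := fun h4 => h1 ⟨h3, h4⟩
        exact le_antisymm (not_lt.1 h4) hy2.2
      · apply hlinα
        exact le_antisymm (not_lt.1 h3) hy2.1
    constructor
    · rintro ⟨h1, h2⟩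
      refine ⟨?_, h2⟩
      rw [hmem, ← key h2]
      exact (hmem _).1 h1
    · rintro ⟨h1, h2⟩
      refine ⟨?_, h2⟩
      show -y ∈ K
      rw [hmem, key h2]
      exact (hmem _).1 h1
  have hpφ : 0 < pr (pt 1 θ₀) φ := by
    rw [pr_pt, one_mul, hφ, show α + π / 2 - θ₀ = π / 2 - (θ₀ - α) by ring,
      Real.cos_pi_div_two_sub]
    apply Real.sin_pos_of_pos_of_lt_pi <;> linarith
  have hpψ : 0 < pr (pt 1 θ₀) ψ := by
    rw [pr_pt, one_mul, hψ, show β - π / 2 - θ₀ = (β - θ₀) - π / 2 by ring,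
      Real.cos_sub_pi_div_two]
    apply Real.sin_pos_of_pos_of_lt_pi <;> linarith
  have hg0 := gpos hK h0 (pt_ne θ₀)
  have hg1 := gpos hK h0 (neg_ne_zero.2 (pt_ne θ₀))
  have hDθ : gauge K (pt 1 θ₀) < gauge K (-(pt 1 θ₀)) := by
    have : 0 < gauge K (-(pt 1 θ₀)) - gauge K (pt 1 θ₀) := hDθ₀
    linarith
  have hmemSo : ∀ c : ℝ, 0 < c → c • pt 1 θ₀ ∈ So := by
    intro c hc0
    constructor
    · show 0 < pr (c • pt 1 θ₀) φ
      rw [pr_smul]; positivity
    · show 0 < pr (c • pt 1 θ₀) ψ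
      rw [pr_smul]; positivity
  have hSoS : So ⊆ S := by
    rintro y ⟨h1, h2⟩
    have h1' : 0 < pr y φ := h1
    have h2' : 0 < pr y ψ := h2
    exact ⟨h1'.le, h2'.le⟩
  have hSoopen : IsOpen So := (isOpen_lt continuous_const (continuous_pr_left φ)).inter
    (isOpen_lt continuous_const (continuous_pr_left ψ))
  have hne : (-K) ∩ S ≠ K ∩ S := by
    intro heq
    have h1 : (gauge K (pt 1 θ₀))⁻¹ • pt 1 θ₀ ∈ K ∩ S := by
      refine ⟨?_, hSoS (hmemSo _ (by positivity))⟩
      rw [hmem, gauge_smul_of_nonneg (by positivity), smul_eq_mul, inv_mul_cancel₀ hg0.ne']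
    rw [← heq] at h1
    have h2 : gauge K (-((gauge K (pt 1 θ₀))⁻¹ • pt 1 θ₀)) ≤ 1 := (hmem _).1 h1.1
    rw [← smul_neg, gauge_smul_of_nonneg (by positivity), smul_eq_mul, inv_mul_le_iff₀ hg0] at h2
    linarith
  have hAi : (interior ((-K) ∩ S)).Nonempty := by
    refine ⟨(2 * gauge K (-(pt 1 θ₀)))⁻¹ • pt 1 θ₀, ?_⟩
    have hsub : interior (-K) ∩ So ⊆ interior ((-K) ∩ S) :=
      interior_maximal (inter_subset_inter interior_subset hSoS)
        (isOpen_interior.inter hSoopen)
    apply hsub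
    refine ⟨?_, hmemSo _ (by positivity)⟩
    have hnhds' : (-K) ∈ 𝓝 (0 : E2) := by
      have := neg_mem_nhds_zero E2 hnhds
      exact this
    rw [← gauge_lt_one_iff_mem_interior hNc hnhds', gauge_neg_set_eq_gauge_neg, ← smul_neg,
      gauge_smul_of_nonneg (by positivity), smul_eq_mul, mul_inv, mul_assoc,
      inv_mul_cancel₀ hg1.ne']
    norm_num
  have hlt := frontier_strict (hNK.inter_right hSc) (hNc.inter hSconv) hAi (hK.inter_right hSc)
    (hc.inter hSconv) hAB hne
  have h1 := measure_sector hK.isClosed φ ψ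
  have h2 := measure_sector hNK.isClosed φ ψ
  have hfr : μH[1] (frontier (-K) ∩ So) = μH[1] (frontier K ∩ So) := by
    have e1 : frontier (-K) ∩ So =
        (IsometryEquiv.neg E2) ⁻¹' (frontier K ∩ ({x | pr x φ < 0} ∩ {x | pr x ψ < 0})) := by
      have e2 : frontier (-K) = (Homeomorph.neg E2) ⁻¹' (frontier K) :=
        ((Homeomorph.neg E2).preimage_frontier K).symm
      rw [e2]
      ext y
      simp only [mem_inter_iff, mem_preimage, Set.mem_ofPred_eq, hSo, IsometryEquiv.neg_apply,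
        Homeomorph.coe_neg, pr_neg, Left.neg_neg_iff]
    rw [e1, IsometryEquiv.hausdorffMeasure_preimage]
    exact (sector_eq hK hc h0 h φ ψ).symm
  rw [← hS, ← hSo] at h1 h2
  rw [h1, h2, hfr, hE] at hlt
  exact lt_irrefl _ hlt

/-- the origin is an interior point if every line through it bisects the perimeter -/
theorem interior_of_bisects (hK : IsCompact K) (hc : Convex ℝ K) (hi : (interior K).Nonempty)
    (h : ∀ n : E2, n ≠ 0 → μH[1] (frontier K ∩ {x | 0 < inner ℝ n x}) =
      μH[1] (frontier K ∩ {x | inner ℝ n x < 0})) : (0 : E2) ∈ interior K := by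
  by_contra h0
  obtain ⟨f, hf⟩ := geometric_hahn_banach_open_point hc.interior isOpen_interior h0
  obtain ⟨p, hp⟩ := hi
  set w : E2 := (InnerProductSpace.toDual ℝ E2).symm f with hw
  have hfw : ∀ y : E2, f y = inner ℝ w y := by
    intro y
    rw [hw, InnerProductSpace.toDual_symm_apply]
  have hneg : ∀ y ∈ interior K, inner ℝ w y < 0 := by
    intro y hy
    rw [← hfw, ← map_zero f]
    exact hf y hy
  have hw0 : w ≠ 0 := by
    intro h1
    have := hneg p hp
    rw [h1, inner_zero_left] at this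
    exact lt_irrefl _ this
  have hle : ∀ y ∈ K, inner ℝ w y ≤ 0 := by
    intro y hy
    have h1 : y ∈ closure (interior K) := by
      rw [hc.closure_interior_eq_closure_of_nonempty_interior ⟨p, hp⟩]
      exact subset_closure hy
    have hcl : IsClosed {x : E2 | inner ℝ w x ≤ 0} := isClosed_le (by fun_prop) continuous_const
    exact closure_minimal (fun x hx => (hneg x hx).le) hcl h1
  have hempty : frontier K ∩ {x | 0 < inner ℝ w x} = ∅ := by
    ext x
    simp only [mem_inter_iff, Set.mem_ofPred_eq, mem_empty_iff_false, iff_false, not_and, not_lt]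
    intro hx
    exact hle x (hK.isClosed.frontier_subset hx)
  have h1 := h w hw0
  have h2 := beyond_pos hK hw0 hp (hneg p hp)
  rw [hempty, measure_empty] at h1
  rw [← h1] at h2
  exact lt_irrefl _ h2

theorem main_zero (hK : IsCompact K) (hc : Convex ℝ K) (hi : (interior K).Nonempty)
    (h : ∀ n : E2, n ≠ 0 → μH[1] (frontier K ∩ {x | 0 < inner ℝ n x}) =
      μH[1] (frontier K ∩ {x | inner ℝ n x < 0})) : -K = K := by
  have h0 := interior_of_bisects hK hc hi h
  have h1 := symmetric_of_interior hK hc h0 (by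
    intro φ
    have := h (pt 1 φ) (pt_ne φ)
    simp only [inner_pt] at this
    exact this)
  ext x
  constructor
  · intro hx
    have := h1 _ hx
    rwa [neg_neg] at this
  · intro hx
    exact h1 x hx

/-- Klamkin's problem: if every line through `O` bisects the perimeter then the curve is
centrally symmetric about `O` -/
theorem klamkin (hK : IsCompact K) (hc : Convex ℝ K) (hi : (interior K).Nonempty) (O : E2)
    (h : ∀ n : E2, n ≠ 0 → μH[1] (frontier K ∩ {x | 0 < inner ℝ n (x - O)}) =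
      μH[1] (frontier K ∩ {x | inner ℝ n (x - O) < 0})) :
    (fun x => (2 : ℝ) • O - x) '' frontier K = frontier K := by
  set f : E2 ≃ᵢ E2 := IsometryEquiv.addRight O with hf
  have hfa : ∀ y, f y = y + O := fun y => rfl
  set K' : Set E2 := f ⁻¹' K with hK'
  have hK'c : IsCompact K' := f.toHomeomorph.isCompact_preimage.2 hK
  have hc' : Convex ℝ K' := by
    intro a ha b hb s t hs ht hst
    have ha' : a + O ∈ K := ha
    have hb' : b + O ∈ K := hb
    show s • a + t • b + O ∈ K
    have := hc ha' hb' hs ht hst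
    have e : s • (a + O) + t • (b + O) = s • a + t • b + O := by
      rw [smul_add, smul_add]
      have : s • O + t • O = O := by rw [← add_smul, hst, one_smul]
      calc s • a + s • O + (t • b + t • O) = s • a + t • b + (s • O + t • O) := by abel
        _ = _ := by rw [this]
    rwa [e] at this
  have hint : interior K' = f ⁻¹' (interior K) := (f.toHomeomorph.preimage_interior K).symm
  have hfr : frontier K' = f ⁻¹' (frontier K) := (f.toHomeomorph.preimage_frontier K).symm
  have hi' : (interior K').Nonempty := by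
    obtain ⟨p, hp⟩ := hi
    rw [hint]
    refine ⟨p - O, ?_⟩
    show p - O + O ∈ interior K
    rwa [sub_add_cancel]
  have hsym : -K' = K' := by
    apply main_zero hK'c hc' hi'
    intro n hn
    have e1 : frontier K' ∩ {x | 0 < inner ℝ n x} =
        f ⁻¹' (frontier K ∩ {x | 0 < inner ℝ n (x - O)}) := by
      rw [hfr]
      ext y
      simp [hfa]
    have e2 : frontier K' ∩ {x | inner ℝ n x < 0} =
        f ⁻¹' (frontier K ∩ {x | inner ℝ n (x - O) < 0}) := by
      rw [hfr]
      ext y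
      simp [hfa]
    rw [e1, e2, f.hausdorffMeasure_preimage, f.hausdorffMeasure_preimage]
    exact h n hn
  have hfsym : ∀ y, -y ∈ frontier K' ↔ y ∈ frontier K' := by
    intro y
    have : frontier (-K') = (Homeomorph.neg E2) ⁻¹' (frontier K') :=
      ((Homeomorph.neg E2).preimage_frontier K').symm
    rw [hsym] at this
    constructor
    · intro hy
      rw [this]
      exact hy
    · intro hy
      rw [this] at hy
      exact hy
  have hiff : ∀ x, (2 : ℝ) • O - x ∈ frontier K ↔ x ∈ frontier K := by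
    intro x
    have h1 := hfsym (x - O)
    rw [hfr] at h1
    have h2 : x - O ∈ f ⁻¹' frontier K ↔ x ∈ frontier K := by
      rw [mem_preimage, hfa, sub_add_cancel]
    have h3 : -(x - O) ∈ f ⁻¹' frontier K ↔ (2 : ℝ) • O - x ∈ frontier K := by
      rw [mem_preimage, hfa, two_smul]
      have : -(x - O) + O = O + O - x := by abel
      rw [this]
    rw [← h2, ← h3]
    exact h1
  ext y
  constructor
  · rintro ⟨x, hx, rfl⟩
    exact (hiff x).2 hx
  · intro hy
    exact ⟨(2 : ℝ) • O - y, (hiff y).2 hy, by simp⟩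

end Pool.Agent.U329.Klam
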