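import Mathlib

set_option autoImplicit false
open Real Set MeasureTheory Filter Topology
open scoped ENNReal NNReal

namespace Pool.Agent.U329.Str

/-- a Lipschitz function whose derivative agrees almost everywhere with a continuous function
is differentiable everywhere -/
theorem lip_hasDeriv {f w : ℝ → ℝ} {C : ℝ≥0} (hf : LipschitzWith C f) (hw : Continuous w)
    (hae : ∀ᵐ x, HasDerivAt f (w x) x) (x : ℝ) : HasDerivAt f (w x) x := by
  have key : ∀ y, f y = f 0 + ∫ t in (0:ℝ)..y, w t := by
    intro y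
    have h1 : AbsolutelyContinuousOnInterval f 0 y :=
      (hf.lipschitzOnWith (s := uIcc 0 y)).absolutelyContinuousOnInterval
    have h2 := h1.integral_deriv_eq_sub
    have h3 : ∫ t in (0:ℝ)..y, deriv f t = ∫ t in (0:ℝ)..y, w t := by
      apply intervalIntegral.integral_congr_ae
      filter_upwards [hae] with t ht _
      exact ht.deriv
    rw [h3] at h2
    linarith
  have hd : HasDerivAt (fun y => f 0 + ∫ t in (0:ℝ)..y, w t) (w x) x := by
    have := intervalIntegral.integral_hasDerivAt_right (hw.intervalIntegrable 0 x)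
      (hw.stronglyMeasurableAtFilter _ _) hw.continuousAt
    exact this.const_add _
  have : f = fun y => f 0 + ∫ t in (0:ℝ)..y, w t := funext key
  rw [this]
  exact hd

theorem const_of_deriv_zero {f : ℝ → ℝ} (h : ∀ x, HasDerivAt f 0 x) (x : ℝ) : f x = f 0 :=
  is_const_of_deriv_eq_zero (fun y => (h y).differentiableAt) (fun y => (h y).deriv) x 0

/-- first order shift equation -/
theorem odd_part {o : ℝ → ℝ} (h1 : ∀ x, HasDerivAt o (o (x + π / 2)) x)
    (h2 : ∀ x, o (x + π) = - o x) (x : ℝ) :
    o x = o 0 * cos x + o (π / 2) * sin x := by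
  have h1' : ∀ x, HasDerivAt (fun y => o (y + π / 2)) (- o x) x := by
    intro x
    have := (h1 (x + π / 2)).comp_add_const x (π / 2)
    rw [show x + π / 2 + π / 2 = x + π by ring, h2] at this
    exact this
  have hp : ∀ x, HasDerivAt (fun y => o y * cos y - o (y + π / 2) * sin y) 0 x := by
    intro x
    have := ((h1 x).mul (Real.hasDerivAt_cos x)).sub ((h1' x).mul (Real.hasDerivAt_sin x))
    refine this.congr_deriv ?_
    ring
  have hq : ∀ x, HasDerivAt (fun y => o y * sin y + o (y + π / 2) * cos y) 0 x := by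
    intro x
    have := ((h1 x).mul (Real.hasDerivAt_sin x)).add ((h1' x).mul (Real.hasDerivAt_cos x))
    refine this.congr_deriv ?_
    ring
  have e1 := const_of_deriv_zero hp x
  have e2 := const_of_deriv_zero hq x
  simp only [Real.cos_zero, Real.sin_zero, mul_one, mul_zero, sub_zero, zero_add] at e1 e2
  have hsc := Real.sin_sq_add_cos_sq x
  linear_combination (cos x) * e1 + (sin x) * e2 - (o x) * hsc

/-- third order equation -/
theorem third_order {F F1 F2 : ℝ → ℝ} (h1 : ∀ x, HasDerivAt F (F1 x) x)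
    (h2 : ∀ x, HasDerivAt F1 (F2 x) x) (h3 : ∀ x, HasDerivAt F2 (-4 * F1 x) x) :
    ∃ A B C : ℝ, ∀ x, F x = A + B * cos (2 * x) + C * sin (2 * x) := by
  have hc : ∀ x, HasDerivAt (fun y : ℝ => cos (2 * y)) (-2 * sin (2 * x)) x := by
    intro x
    have h : HasDerivAt (fun y : ℝ => 2 * y) 2 x := by
      simpa using (hasDerivAt_id x).const_mul 2
    refine h.cos.congr_deriv ?_
    ring
  have hs : ∀ x, HasDerivAt (fun y : ℝ => sin (2 * y)) (2 * cos (2 * x)) x := by
    intro x
    have h : HasDerivAt (fun y : ℝ => 2 * y) 2 x := by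
      simpa using (hasDerivAt_id x).const_mul 2
    refine h.sin.congr_deriv ?_
    ring
  have hp : ∀ x, HasDerivAt (fun y => F1 y * cos (2 * y) - F2 y * sin (2 * y) / 2) 0 x := by
    intro x
    have := ((h2 x).mul (hc x)).sub (((h3 x).mul (hs x)).div_const 2)
    refine this.congr_deriv ?_
    ring
  have hq : ∀ x, HasDerivAt (fun y => F1 y * sin (2 * y) + F2 y * cos (2 * y) / 2) 0 x := by
    intro x
    have := ((h2 x).mul (hs x)).add (((h3 x).mul (hc x)).div_const 2)
    refine this.congr_deriv ?_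
    ring
  have e1 : ∀ x, F1 x * cos (2 * x) - F2 x * sin (2 * x) / 2 = F1 0 := by
    intro x
    have := const_of_deriv_zero hp x
    simpa using this
  have e2 : ∀ x, F1 x * sin (2 * x) + F2 x * cos (2 * x) / 2 = F2 0 / 2 := by
    intro x
    have := const_of_deriv_zero hq x
    simpa using this
  have e3 : ∀ x, F1 x = F1 0 * cos (2 * x) + F2 0 / 2 * sin (2 * x) := by
    intro x
    have hsc := Real.sin_sq_add_cos_sq (2 * x)
    linear_combination (cos (2 * x)) * e1 x + (sin (2 * x)) * e2 x - (F1 x) * hsc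
  have hr : ∀ x, HasDerivAt (fun y => F y - (F1 0 / 2 * sin (2 * y) - F2 0 / 4 * cos (2 * y))) 0 x := by
    intro x
    have := (h1 x).sub (((hs x).const_mul (F1 0 / 2)).sub ((hc x).const_mul (F2 0 / 4)))
    refine this.congr_deriv ?_
    rw [e3 x]; ring
  refine ⟨F 0 + F2 0 / 4, - F2 0 / 4, F1 0 / 2, ?_⟩
  intro x
  have := const_of_deriv_zero hr x
  simp only [mul_zero, Real.sin_zero, Real.cos_zero, mul_one] at this
  linarith

/-- the functional equation `F'(θ) sin 2s = F(θ+s) - F(θ-s)` forces a second order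
trigonometric polynomial -/
theorem functional {F F1 : ℝ → ℝ} {s1 : ℝ} (hs0 : 0 ≤ s1) (hs1 : s1 < π / 2)
    (h1 : ∀ x, HasDerivAt F (F1 x) x)
    (heq : ∀ s, s1 < s → s < π / 2 → ∀ x, F1 x * sin (2 * s) = F (x + s) - F (x - s)) :
    ∃ A B C : ℝ, ∀ x, F x = A + B * cos (2 * x) + C * sin (2 * x) := by
  have hpi := Real.pi_pos
  set s := (s1 + π / 2) / 2 with hs
  have hsa : s1 < s := by rw [hs]; linarith
  have hsb : s < π / 2 := by rw [hs]; linarith
  have hsin : 0 < sin (2 * s) := Real.sin_pos_of_pos_of_lt_pi (by linarith) (by linarith)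
  have shift : ∀ {G G1 : ℝ → ℝ}, (∀ x, HasDerivAt G (G1 x) x) → ∀ x,
      HasDerivAt (fun x => (G (x + s) - G (x - s)) / sin (2 * s))
        ((G1 (x + s) - G1 (x - s)) / sin (2 * s)) x := by
    intro G G1 hG x
    exact (((hG (x + s)).comp_add_const x s).sub ((hG (x - s)).comp_sub_const x s)).div_const _
  have hF1 : F1 = fun x => (F (x + s) - F (x - s)) / sin (2 * s) := by
    funext x
    rw [eq_div_iff hsin.ne']
    exact heq s hsa hsb x
  -- second derivative
  set F2 : ℝ → ℝ := fun x => (F1 (x + s) - F1 (x - s)) / sin (2 * s) with hF2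
  have h2 : ∀ x, HasDerivAt F1 (F2 x) x := by
    intro x
    have := shift h1 x
    rw [← hF1] at this
    exact this
  set F3 : ℝ → ℝ := fun x => (F2 (x + s) - F2 (x - s)) / sin (2 * s) with hF3
  have h3 : ∀ x, HasDerivAt F2 (F3 x) x := fun x => shift h2 x
  refine third_order h1 h2 ?_
  intro x
  have hmem : Ioo s1 (π / 2) ∈ 𝓝 s := Ioo_mem_nhds hsa hsb
  have hopen : IsOpen (Ioo s1 (π / 2)) := isOpen_Ioo
  -- differentiate in `s`
  have d1 : ∀ t ∈ Ioo s1 (π / 2), F1 (x + t) + F1 (x - t) = 2 * cos (2 * t) * F1 x := by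
    intro t ht
    have ha : HasDerivAt (fun t => F (x + t) - F (x - t)) (F1 (x + t) + F1 (x - t)) t := by
      have a1 := (h1 (x + t)).comp_const_add x t
      have a2 := (h1 (x - t)).comp_const_sub x t
      refine (a1.sub a2).congr_deriv ?_
      ring
    have hb : HasDerivAt (fun t => F1 x * sin (2 * t)) (2 * cos (2 * t) * F1 x) t := by
      have h : HasDerivAt (fun y : ℝ => 2 * y) 2 t := by
        simpa using (hasDerivAt_id t).const_mul 2
      refine (h.sin.const_mul (F1 x)).congr_deriv ?_
      ring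
    have he : (fun t => F (x + t) - F (x - t)) =ᶠ[𝓝 t] (fun t => F1 x * sin (2 * t)) := by
      filter_upwards [hopen.mem_nhds ht] with u hu
      exact (heq u hu.1 hu.2 x).symm
    exact (ha.congr_of_eventuallyEq he.symm).unique hb
  have d2 : F2 (x + s) - F2 (x - s) = -4 * sin (2 * s) * F1 x := by
    have ha : HasDerivAt (fun t => F1 (x + t) + F1 (x - t)) (F2 (x + s) - F2 (x - s)) s := by
      have a1 := (h2 (x + s)).comp_const_add x s
      have a2 := (h2 (x - s)).comp_const_sub x s
      refine (a1.add a2).congr_deriv ?_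
      ring
    have hb : HasDerivAt (fun t => 2 * cos (2 * t) * F1 x) (-4 * sin (2 * s) * F1 x) s := by
      have h : HasDerivAt (fun y : ℝ => 2 * y) 2 s := by
        simpa using (hasDerivAt_id s).const_mul 2
      refine ((h.cos.const_mul 2).mul_const (F1 x)).congr_deriv ?_
      ring
    have he : (fun t => F1 (x + t) + F1 (x - t)) =ᶠ[𝓝 s] (fun t => 2 * cos (2 * t) * F1 x) := by
      filter_upwards [hmem] with u hu
      exact d1 u hu
    exact (ha.congr_of_eventuallyEq he.symm).unique hb
  have : F3 x = -4 * F1 x := by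
    simp only [hF3]
    rw [d2]
    field_simp
  rw [← this]
  exact h3 x

end Pool.Agent.U329.Str
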