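import Pool.Agent.R763.StrLevel
import Pool.Agent.U329.StrFinA

set_option autoImplicit false
open Real Set MeasureTheory Filter Topology
open scoped ENNReal NNReal

namespace Pool.Agent.U329.Str
open Pool.Agent.R763.Str

variable {K : Set E2}

/-- pointwise relation at a point of differentiability -/
theorem rel_at (hK : IsCompact K) (h0 : (0 : E2) ∈ interior K) (hyp : Hyp K) :
    ∃ s1, 0 ≤ s1 ∧ s1 < π / 2 ∧ ∀ s, s1 < s → s < π / 2 → ∀ θ d1 d2 : ℝ,
      HasDerivAt (hs K) d1 θ → HasDerivAt (hs K) d2 (θ + π) →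
      (hs K θ + hs K (θ + π)) / 2 * ((d1 + d2) / 2) =
        ((hs K (θ + s) - hs K (θ - s)) / (2 * sin s) - (d1 - d2) / 2) *
        ((hs K (θ + s) + hs K (θ - s)) / (2 * cos s) - (hs K θ - hs K (θ + π)) / 2) := by
  have hpi := Real.pi_pos
  obtain ⟨s1, ha, hb, hl⟩ := level hK h0 hyp
  refine ⟨s1, ha, hb, ?_⟩
  intro s hs1 hs2 θ d1 d2 hd1 hd2
  obtain ⟨g, c, gpos, godd, geven, gθ, gtouch⟩ := hl s hs1 hs2 θ
  set h := hs K with hh
  set E : ℝ → ℝ := fun φ => (h φ + h (φ + π)) / 2 with hE
  set o : ℝ → ℝ := fun φ => (h φ - h (φ + π)) / 2 with ho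
  have hgper : ∀ φ, g φ = sqrt (E φ ^ 2 + c) + o φ := by
    intro φ
    have h1 : (g φ + g (φ + π)) / 2 = sqrt (E φ ^ 2 + c) := by
      rw [hE]
      simp only
      rw [← geven φ, Real.sqrt_sq]
      have := gpos φ; have := gpos (φ + π); linarith
    have h2 := godd φ
    rw [← h1]
    simp only [ho]
    linarith
  have hpos : ∀ φ, 0 < E φ ^ 2 + c := by
    intro φ
    simp only [hE]
    rw [← geven φ]
    have h1 := gpos φ
    have h2 := gpos (φ + π)
    positivity
  -- derivatives
  have dE : HasDerivAt E ((d1 + d2) / 2) θ := by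
    exact (hd1.add (hd2.comp_add_const θ π)).div_const 2
  have dO : HasDerivAt o ((d1 - d2) / 2) θ := by
    exact (hd1.sub (hd2.comp_add_const θ π)).div_const 2
  have dS : HasDerivAt (fun φ => sqrt (E φ ^ 2 + c)) (E θ * ((d1 + d2) / 2) / sqrt (E θ ^ 2 + c)) θ := by
    have h1 : HasDerivAt (fun φ => E φ ^ 2 + c) (2 * E θ * ((d1 + d2) / 2)) θ := by
      refine ((dE.pow 2).add_const c).congr_deriv ?_
      norm_num
    refine (h1.sqrt (hpos θ).ne').congr_deriv ?_
    have := Real.sqrt_pos.2 (hpos θ)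
    field_simp
  have dg : HasDerivAt g (E θ * ((d1 + d2) / 2) / sqrt (E θ ^ 2 + c) + (d1 - d2) / 2) θ := by
    have := dS.add dO
    refine this.congr_of_eventuallyEq (Eventually.of_forall ?_)
    intro φ
    exact hgper φ
  set D := (h (θ + s) - h (θ - s)) / (2 * sin s) with hD
  have dT : HasDerivAt (fun φ => cos (φ - θ) * g θ + sin (φ - θ) * D) D θ := by
    have h1 : HasDerivAt (fun φ : ℝ => φ - θ) 1 θ := (hasDerivAt_id θ).sub_const θ
    have h2 := (h1.cos.mul_const (g θ)).add (h1.sin.mul_const D)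
    refine h2.congr_deriv ?_
    simp
  have hmin : IsLocalMin (fun φ => g φ - (cos (φ - θ) * g θ + sin (φ - θ) * D)) θ := by
    apply Eventually.of_forall
    intro φ
    simp only [sub_self, Real.cos_zero, Real.sin_zero, one_mul, zero_mul, add_zero]
    have := gtouch φ
    linarith
  have hz := hmin.hasDerivAt_eq_zero (dg.sub dT)
  have hsq : sqrt (E θ ^ 2 + c) = (h (θ + s) + h (θ - s)) / (2 * cos s) - o θ := by
    have := hgper θ
    rw [gθ] at this
    linarith
  have hsqpos := Real.sqrt_pos.2 (hpos θ)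
  rw [← hsq]
  have h5 : E θ * ((d1 + d2) / 2) / sqrt (E θ ^ 2 + c) = D - (d1 - d2) / 2 := by linarith
  rw [div_eq_iff hsqpos.ne'] at h5
  exact h5

/-- at points of differentiability the odd part satisfies a first order shift equation -/
theorem odd_at (hK : IsCompact K) (h0 : (0 : E2) ∈ interior K) (hyp : Hyp K) (θ d1 d2 : ℝ)
    (hd1 : HasDerivAt (hs K) d1 θ) (hd2 : HasDerivAt (hs K) d2 (θ + π)) :
    (d1 - d2) / 2 = (hs K (θ + π / 2) - hs K (θ + π / 2 + π)) / 2 := by
  have hpi := Real.pi_pos
  have hne : K.Nonempty := ⟨0, interior_subset h0⟩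
  obtain ⟨r, hr, hlow⟩ := pos_of_interior hK h0
  obtain ⟨s1, ha, hb, hrel⟩ := rel_at hK h0 hyp
  have hcont := hs_continuous hK hne
  have hper : hs K (θ + π / 2 + π) = hs K (θ - π / 2) := by
    rw [← hs_periodic K (θ - π / 2)]; congr 1; ring
  rw [hper]
  set h := hs K with hh
  have heq : ∀ s ∈ Ioo s1 (π / 2), 2 * cos s * ((h θ + h (θ + π)) / 2 * ((d1 + d2) / 2)) =
      ((h (θ + s) - h (θ - s)) / (2 * sin s) - (d1 - d2) / 2) *
        ((h (θ + s) + h (θ - s)) - 2 * cos s * ((h θ - h (θ + π)) / 2)) := by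
    intro s hs
    have h1 := hrel s hs.1 hs.2 θ d1 d2 hd1 hd2
    have hcos : 0 < cos s := Real.cos_pos_of_mem_Ioo ⟨by linarith [hs.1], hs.2⟩
    rw [h1]
    field_simp
  have hlim : Tendsto (fun s : ℝ => s) (𝓝[<] (π / 2)) (𝓝 (π / 2)) := nhdsWithin_le_nhds
  have l1 : Tendsto (fun s => 2 * cos s * ((h θ + h (θ + π)) / 2 * ((d1 + d2) / 2))) (𝓝[<] (π / 2))
      (𝓝 (2 * cos (π / 2) * ((h θ + h (θ + π)) / 2 * ((d1 + d2) / 2)))) := by
    apply Tendsto.mono_left _ nhdsWithin_le_nhds
    apply Continuous.tendsto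
    fun_prop
  have l2 : Tendsto (fun s => ((h (θ + s) - h (θ - s)) / (2 * sin s) - (d1 - d2) / 2) *
        ((h (θ + s) + h (θ - s)) - 2 * cos s * ((h θ - h (θ + π)) / 2))) (𝓝[<] (π / 2))
      (𝓝 (((h (θ + π / 2) - h (θ - π / 2)) / (2 * sin (π / 2)) - (d1 - d2) / 2) *
        ((h (θ + π / 2) + h (θ - π / 2)) - 2 * cos (π / 2) * ((h θ - h (θ + π)) / 2)))) := by
    apply Tendsto.mono_left _ nhdsWithin_le_nhds
    apply ContinuousAt.tendsto
    apply ContinuousAt.mul
    · apply ContinuousAt.sub _ continuousAt_const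
      apply ContinuousAt.div
      · exact Continuous.continuousAt (by fun_prop)
      · exact Continuous.continuousAt (by fun_prop)
      · rw [Real.sin_pi_div_two]; norm_num
    · exact Continuous.continuousAt (by fun_prop)
  have hev : (fun s => 2 * cos s * ((h θ + h (θ + π)) / 2 * ((d1 + d2) / 2))) =ᶠ[𝓝[<] (π / 2)]
      (fun s => ((h (θ + s) - h (θ - s)) / (2 * sin s) - (d1 - d2) / 2) *
        ((h (θ + s) + h (θ - s)) - 2 * cos s * ((h θ - h (θ + π)) / 2))) := by
    filter_upwards [Ioo_mem_nhdsLT hb] with s hs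
    exact heq s hs
  have hfin := tendsto_nhds_unique_of_eventuallyEq l1 l2 hev
  rw [Real.cos_pi_div_two, Real.sin_pi_div_two] at hfin
  simp only [mul_zero, zero_mul, sub_zero, mul_one] at hfin
  have hp : 0 < h (θ + π / 2) + h (θ - π / 2) := by
    have a := hlow (θ + π / 2)
    have b := hlow (θ - π / 2)
    linarith
  rcases mul_eq_zero.1 hfin.symm with h1 | h1
  · linarith
  · linarith

theorem support_form (hK : IsCompact K) (h0 : (0 : E2) ∈ interior K) (hyp : Hyp K) :
    ∃ A B C a b : ℝ, (∀ x, 0 < A + B * cos (2 * x) + C * sin (2 * x)) ∧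
      ∀ x, hs K x = sqrt (A + B * cos (2 * x) + C * sin (2 * x)) + (a * cos x + b * sin x) := by
  have hpi := Real.pi_pos
  have hne : K.Nonempty := ⟨0, interior_subset h0⟩
  obtain ⟨r, hr, hlow⟩ := pos_of_interior hK h0
  obtain ⟨R, hR⟩ := hK.isBounded.subset_closedBall 0
  have hR' : K ⊆ Metric.closedBall 0 (max R 0) :=
    hR.trans (Metric.closedBall_subset_closedBall (le_max_left _ _))
  obtain ⟨s1, ha, hb, hrel⟩ := rel_at hK h0 hyp
  have hcont := hs_continuous hK hne
  have hlip : LipschitzWith (Real.toNNReal (max R 0)) (hs K) := by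
    apply LipschitzWith.of_dist_le_mul
    intro x y
    rw [Real.dist_eq, Real.dist_eq, Real.coe_toNNReal _ (le_max_right _ _)]
    exact hs_lip hK hne hR' x y
  have hup : ∀ θ, hs K θ ≤ max R 0 := by
    intro θ
    apply hs_le hK hne
    intro y hy
    exact (pr_le_norm y θ).trans (by simpa using hR' hy)
  have hper := hs_periodic K
  have hodd := odd_at hK h0 hyp
  set h := hs K with hh
  set E : ℝ → ℝ := fun φ => (h φ + h (φ + π)) / 2 with hE
  set o : ℝ → ℝ := fun φ => (h φ - h (φ + π)) / 2 with ho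
  have hlipS : LipschitzWith (Real.toNNReal (max R 0)) (fun φ => h (φ + π)) := by
    apply LipschitzWith.of_dist_le_mul
    intro x y
    have := hlip.dist_le_mul (x + π) (y + π)
    rwa [dist_add_right] at this
  have hlipE : LipschitzWith (Real.toNNReal (max R 0)) E := by
    apply LipschitzWith.of_dist_le_mul
    intro x y
    have h1 := hlip.dist_le_mul x y
    have h2 := hlipS.dist_le_mul x y
    rw [Real.dist_eq] at h1 h2 ⊢
    simp only [hE]
    have : (h x + h (x + π)) / 2 - (h y + h (y + π)) / 2 = ((h x - h y) + (h (x + π) - h (y + π))) / 2 := by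
      ring
    rw [this, abs_div, abs_two]
    have := abs_add_le (h x - h y) (h (x + π) - h (y + π))
    linarith
  have hlipO : LipschitzWith (Real.toNNReal (max R 0)) o := by
    apply LipschitzWith.of_dist_le_mul
    intro x y
    have h1 := hlip.dist_le_mul x y
    have h2 := hlipS.dist_le_mul x y
    rw [Real.dist_eq] at h1 h2 ⊢
    simp only [ho]
    have : (h x - h (x + π)) / 2 - (h y - h (y + π)) / 2 = ((h x - h y) - (h (x + π) - h (y + π))) / 2 := by
      ring
    rw [this, abs_div, abs_two]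
    have := abs_sub (h x - h y) (h (x + π) - h (y + π))
    linarith
  have hae : ∀ᵐ x, DifferentiableAt ℝ h x := hlip.ae_differentiableAt_real
  have haeS : ∀ᵐ x, DifferentiableAt ℝ (fun φ => h (φ + π)) x := hlipS.ae_differentiableAt_real
  have hpi2 : ∀ x, h (x + π + π) = h x := by
    intro x
    rw [show x + π + π = x + 2 * π by ring]; exact hper x
  -- odd part
  have ho_anti : ∀ x, o (x + π) = - o x := by
    intro x
    simp only [ho]
    rw [hpi2]; ring
  have hE_per : ∀ x, E (x + π) = E x := by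
    intro x
    simp only [hE]
    rw [hpi2]; ring
  have hocont : Continuous o := by simp only [ho]; fun_prop
  have hEcont : Continuous E := by simp only [hE]; fun_prop
  have hdiffS : ∀ x, DifferentiableAt ℝ (fun φ => h (φ + π)) x →
      ∃ d, HasDerivAt h d (x + π) := by
    intro x hx
    refine ⟨deriv (fun φ => h (φ + π)) x, ?_⟩
    have h1 : HasDerivAt (fun φ => h (φ + π)) (deriv (fun φ => h (φ + π)) x) (x + π - π) := by
      rw [add_sub_cancel_right]; exact hx.hasDerivAt
    have h2 := h1.comp_sub_const (x + π) π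
    refine h2.congr_of_eventuallyEq (Eventually.of_forall ?_)
    intro y
    simp
  have dO : ∀ x, HasDerivAt o (o (x + π / 2)) x := by
    apply lip_hasDeriv (w := fun x => o (x + π / 2)) hlipO (by fun_prop)
    filter_upwards [hae, haeS] with x hx1 hx2
    obtain ⟨d2, hd2⟩ := hdiffS x hx2
    have h1 := hodd x _ d2 hx1.hasDerivAt hd2
    have h2 : o (x + π / 2) = (deriv h x - d2) / 2 := by
      rw [h1]
    rw [h2]
    exact (hx1.hasDerivAt.sub (hd2.comp_add_const x π)).div_const 2
  have hoform := odd_part dO ho_anti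
  -- even part
  set F : ℝ → ℝ := fun x => E x ^ 2 with hF
  have hEb : ∀ x, |E x| ≤ max R 0 := by
    intro x
    simp only [hE]
    have a := hlow x
    have b := hlow (x + π)
    have c := hup x
    have d := hup (x + π)
    rw [abs_of_pos (by linarith)]
    linarith
  have hM0 : 0 ≤ max R 0 := le_max_right _ _
  have hlipF : LipschitzWith (Real.toNNReal (2 * max R 0 * max R 0)) F := by
    apply LipschitzWith.of_dist_le_mul
    intro x y
    have h1 := hlipE.dist_le_mul x y
    rw [Real.dist_eq, Real.coe_toNNReal _ hM0] at h1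
    rw [Real.dist_eq, Real.coe_toNNReal _ (by positivity)]
    simp only [hF]
    have : E x ^ 2 - E y ^ 2 = (E x + E y) * (E x - E y) := by ring
    rw [this, abs_mul]
    have h2 : |E x + E y| ≤ 2 * max R 0 := by
      have := abs_add_le (E x) (E y)
      have := hEb x
      have := hEb y
      linarith
    calc |E x + E y| * |E x - E y| ≤ (2 * max R 0) * (max R 0 * dist x y) :=
          mul_le_mul h2 h1 (abs_nonneg _) (by positivity)
      _ = 2 * max R 0 * max R 0 * dist x y := by ring
  have hFcont : Continuous F := by simp only [hF]; fun_prop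
  have dFs : ∀ s, s1 < s → s < π / 2 → ∀ x, HasDerivAt F ((F (x + s) - F (x - s)) / sin (2 * s)) x := by
    intro s hs1 hs2
    have hsin : 0 < sin s := Real.sin_pos_of_pos_of_lt_pi (by linarith) (by linarith)
    have hcos : 0 < cos s := Real.cos_pos_of_mem_Ioo ⟨by linarith, hs2⟩
    apply lip_hasDeriv (w := fun x => (F (x + s) - F (x - s)) / sin (2 * s)) hlipF (by fun_prop)
    filter_upwards [hae, haeS] with x hx1 hx2
    obtain ⟨d2, hd2⟩ := hdiffS x hx2
    have h1 := hrel s hs1 hs2 x _ d2 hx1.hasDerivAt hd2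
    have dE : HasDerivAt E ((deriv h x + d2) / 2) x :=
      (hx1.hasDerivAt.add (hd2.comp_add_const x π)).div_const 2
    have h3 : HasDerivAt o ((deriv h x - d2) / 2) x :=
      (hx1.hasDerivAt.sub (hd2.comp_add_const x π)).div_const 2
    have h4 := h3.unique (dO x)
    have hEo : ∀ y, h y = E y + o y := by
      intro y; simp only [hE, ho]; ring
    have e1 : (h (x + s) - h (x - s)) / (2 * sin s) - (deriv h x - d2) / 2 =
        (E (x + s) - E (x - s)) / (2 * sin s) := by
      rw [h4, hEo (x + s), hEo (x - s), hoform (x + s), hoform (x - s), hoform (x + π / 2),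
        Real.cos_add_pi_div_two, Real.sin_add_pi_div_two, Real.cos_add, Real.cos_sub,
        Real.sin_add, Real.sin_sub]
      field_simp
      ring
    have e2 : (h (x + s) + h (x - s)) / (2 * cos s) - (h x - h (x + π)) / 2 =
        (E (x + s) + E (x - s)) / (2 * cos s) := by
      have : (h x - h (x + π)) / 2 = o x := rfl
      rw [this, hEo (x + s), hEo (x - s), hoform (x + s), hoform (x - s), hoform x,
        Real.cos_add, Real.cos_sub, Real.sin_add, Real.sin_sub]
      field_simp
      ring
    rw [e1, e2] at h1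
    have dF : HasDerivAt F (2 * E x * ((deriv h x + d2) / 2)) x := by
      refine (dE.pow 2).congr_deriv ?_
      norm_num
    refine dF.congr_deriv ?_
    have h5 : (h x + h (x + π)) / 2 = E x := rfl
    rw [h5] at h1
    rw [mul_assoc, h1, Real.sin_two_mul]
    simp only [hF]
    field_simp
    ring
  set s := (s1 + π / 2) / 2 with hs
  have hsa : s1 < s := by rw [hs]; linarith
  have hsb : s < π / 2 := by rw [hs]; linarith
  obtain ⟨A, B, C, hABC⟩ := functional (F := F) (F1 := fun x => (F (x + s) - F (x - s)) / sin (2 * s))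
    ha hb (dFs s hsa hsb) (by
      intro t ht1 ht2 x
      have h1 := (dFs s hsa hsb x).unique (dFs t ht1 ht2 x)
      have hsin : 0 < sin (2 * t) := Real.sin_pos_of_pos_of_lt_pi (by linarith) (by linarith)
      rw [h1, div_mul_cancel₀ _ hsin.ne'])
  have hEpos : ∀ x, 0 < E x := by
    intro x
    simp only [hE]
    have a := hlow x
    have b := hlow (x + π)
    linarith
  refine ⟨A, B, C, o 0, o (π / 2), ?_, ?_⟩
  · intro x
    rw [← hABC x]
    have := hEpos x
    simp only [hF]
    positivity
  · intro x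
    rw [← hABC x, ← hoform x]
    simp only [hF]
    rw [Real.sqrt_sq (hEpos x).le]
    simp only [hE, ho]
    ring

end Pool.Agent.U329.Str
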